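import Pool.Agent.Helper733.Joints

/-!
A weighted joints theorem, part 2: optimisation and the final inequality.
-/

set_option autoImplicit false

namespace Pool.Agent.Helper733.WJ

open scoped BigOperators
open Pool.Agent.Helper733.Joints

noncomputable section

open Classical in
/-- the independent tuples of lines through a point -/
def good {n : ℕ} {J L : Type*} (u : L → (Fin n → ℝ)) (inc : J → L → Prop) (p : J)
    (τ : Fin n → L) : Prop :=
  (∀ i, inc p (τ i)) ∧ LinearIndependent ℝ (fun i => u (τ i))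

open Classical in
/-- the total weight of the independent tuples through a point -/
def tw {n : ℕ} {J L : Type*} [Fintype L] (u : L → (Fin n → ℝ)) (inc : J → L → Prop) (w : L → ℝ)
    (p : J) : ℝ :=
  ∑ τ ∈ Finset.univ.filter (good u inc p), ∏ i, w (τ i)

lemma nonneg_of_min {f : ℝ → ℝ} {f' δ₀ : ℝ} (hδ : 0 < δ₀) (hf : HasDerivAt f f' 0)
    (hmin : ∀ δ, 0 < δ → δ ≤ δ₀ → f 0 ≤ f δ) : 0 ≤ f' := by
  have h1 : Filter.Tendsto (slope f 0) (nhdsWithin 0 (Set.Ioi 0)) (nhds f') :=
    (hasDerivWithinAt_iff_tendsto_slope' (by simp)).mp hf.hasDerivWithinAt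
  refine ge_of_tendsto h1 ?_
  have h2 : Set.Ioc (0 : ℝ) δ₀ ∈ nhdsWithin (0 : ℝ) (Set.Ioi 0) :=
    Ioc_mem_nhdsGT hδ
  filter_upwards [h2] with δ hδ'
  rw [slope_def_field]
  apply div_nonneg
  · linarith [hmin δ hδ'.1 hδ'.2]
  · linarith [hδ'.1]

variable {n : ℕ} {J L : Type*} [Fintype J] [Fintype L]

/-- the feasible set -/
def feas (inc : J → L → Prop) (w : L → ℝ) : Set (J → L → ℝ) :=
  {b | (∀ p l, 0 ≤ b p l) ∧ (∀ p l, b p l ≤ 1) ∧ (∀ p l, ¬ inc p l → b p l = 0) ∧
    (∀ l, 0 < w l → ∑ p, b p l = 1)}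

lemma feas_compact (inc : J → L → Prop) (w : L → ℝ) : IsCompact (feas inc w) := by
  have hc : IsCompact (Set.pi Set.univ (fun _ : J => Set.pi Set.univ (fun _ : L => Set.Icc (0 : ℝ) 1))) :=
    isCompact_univ_pi (fun _ => isCompact_univ_pi (fun _ => isCompact_Icc))
  refine hc.of_isClosed_subset ?_ ?_
  · have h1 : IsClosed {b : J → L → ℝ | ∀ p l, 0 ≤ b p l} := by
      simp only [Set.ofPred_forall]
      exact isClosed_iInter fun p => isClosed_iInter fun l =>
        isClosed_le continuous_const (by fun_prop)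
    have h2 : IsClosed {b : J → L → ℝ | ∀ p l, b p l ≤ 1} := by
      simp only [Set.ofPred_forall]
      exact isClosed_iInter fun p => isClosed_iInter fun l =>
        isClosed_le (by fun_prop) continuous_const
    have h3 : IsClosed {b : J → L → ℝ | ∀ p l, ¬ inc p l → b p l = 0} := by
      simp only [Set.ofPred_forall]
      exact isClosed_iInter fun p => isClosed_iInter fun l => isClosed_iInter fun _ =>
        isClosed_eq (by fun_prop) continuous_const
    have h4 : IsClosed {b : J → L → ℝ | ∀ l, 0 < w l → ∑ p, b p l = 1} := by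
      simp only [Set.ofPred_forall]
      exact isClosed_iInter fun l => isClosed_iInter fun _ =>
        isClosed_eq (by fun_prop) continuous_const
    exact h1.inter (h2.inter (h3.inter h4))
  · intro b hb
    rw [Set.mem_univ_pi]
    intro p
    rw [Set.mem_univ_pi]
    intro l
    exact ⟨hb.1 p l, hb.2.1 p l⟩

/-- the functional -/
def Th (n : ℕ) (w : L → ℝ) (m : J → ℝ) (ε : ℝ) (b : J → L → ℝ) : ℝ :=
  (ε / 2) * ∑ p, ∑ l, w l * b p l ^ 2 + (1 / n) * ∑ p, (∑ l, w l * b p l) ^ n / m p

lemma Th_cont (n : ℕ) (w : L → ℝ) (m : J → ℝ) (ε : ℝ) : Continuous (Th n w m ε) := by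
  unfold Th
  fun_prop

open Classical in
/-- mass transfer direction -/
def mv (p q : J) (l : L) : J → L → ℝ :=
  fun r k => if k = l then ((if r = q then 1 else 0) - (if r = p then 1 else 0)) else 0

lemma Th_deriv (hn : 1 ≤ n) (w : L → ℝ) (m : J → ℝ) (ε : ℝ) (b : J → L → ℝ) (p q : J) (l : L) :
    HasDerivAt (fun δ : ℝ => Th n w m ε (fun r k => b r k + δ * mv p q l r k))
      (w l * (ε * (b q l - b p l) + (∑ k, w k * b q k) ^ (n - 1) / m q
        - (∑ k, w k * b p k) ^ (n - 1) / m p)) 0 := by
  classical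
  have h1 : HasDerivAt (fun δ : ℝ => (ε / 2) * ∑ r, ∑ k, w k * (b r k + δ * mv p q l r k) ^ 2)
      ((ε / 2) * ∑ r, ∑ k, w k * (2 * b r k * mv p q l r k)) 0 := by
    apply HasDerivAt.const_mul
    apply HasDerivAt.fun_sum
    intro r _
    apply HasDerivAt.fun_sum
    intro k _
    apply HasDerivAt.const_mul
    have hlin : HasDerivAt (fun δ : ℝ => b r k + δ * mv p q l r k) (mv p q l r k) 0 := by
      have := ((hasDerivAt_id (0 : ℝ)).mul_const (mv p q l r k)).const_add (b r k)
      simpa using this
    have := hlin.fun_pow 2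
    simpa using this
  have h2 : HasDerivAt (fun δ : ℝ => (1 / (n : ℝ)) *
      ∑ r, (∑ k, w k * (b r k + δ * mv p q l r k)) ^ n / m r)
      ((1 / (n : ℝ)) * ∑ r, ((n : ℝ) * (∑ k, w k * b r k) ^ (n - 1) *
        (∑ k, w k * mv p q l r k)) / m r) 0 := by
    apply HasDerivAt.const_mul
    apply HasDerivAt.fun_sum
    intro r _
    apply HasDerivAt.div_const
    have hlin : HasDerivAt (fun δ : ℝ => ∑ k, w k * (b r k + δ * mv p q l r k))
        (∑ k, w k * mv p q l r k) 0 := by
      apply HasDerivAt.fun_sum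
      intro k _
      apply HasDerivAt.const_mul
      have := ((hasDerivAt_id (0 : ℝ)).mul_const (mv p q l r k)).const_add (b r k)
      simpa using this
    have := hlin.fun_pow n
    simpa using this
  have h3 := h1.add h2
  have hn0 : (n : ℝ) ≠ 0 := by
    have : 0 < n := hn
    positivity
  have e1 : ∀ r, ∑ k, w k * mv p q l r k = w l * ((if r = q then 1 else 0) - (if r = p then 1 else 0)) := by
    intro r
    rw [Finset.sum_eq_single l]
    · simp [mv]
    · intro k _ hk
      simp [mv, hk]
    · intro h; exact absurd (Finset.mem_univ l) h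
  have e2 : ∀ r, ∑ k, w k * (2 * b r k * mv p q l r k) =
      2 * w l * b r l * ((if r = q then 1 else 0) - (if r = p then 1 else 0)) := by
    intro r
    rw [Finset.sum_eq_single l]
    · simp [mv]; ring
    · intro k _ hk
      simp [mv, hk]
    · intro h; exact absurd (Finset.mem_univ l) h
  have e3 : (ε / 2) * ∑ r, ∑ k, w k * (2 * b r k * mv p q l r k) = w l * (ε * (b q l - b p l)) := by
    rw [Finset.sum_congr rfl (fun r _ => e2 r)]
    simp only [mul_sub, Finset.sum_sub_distrib, mul_ite, mul_one, mul_zero, Finset.sum_ite_eq',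
      Finset.mem_univ, if_true]
    ring
  have e4 : (1 / (n : ℝ)) * ∑ r, ((n : ℝ) * (∑ k, w k * b r k) ^ (n - 1) *
        (∑ k, w k * mv p q l r k)) / m r = w l * ((∑ k, w k * b q k) ^ (n - 1) / m q
        - (∑ k, w k * b p k) ^ (n - 1) / m p) := by
    have e5 : ∀ r, ((n : ℝ) * (∑ k, w k * b r k) ^ (n - 1) * (∑ k, w k * mv p q l r k)) / m r
        = (n : ℝ) * (w l * ((∑ k, w k * b r k) ^ (n - 1) / m r)) * (if r = q then 1 else 0)
          - (n : ℝ) * (w l * ((∑ k, w k * b r k) ^ (n - 1) / m r)) * (if r = p then 1 else 0) := by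
      intro r
      rw [e1 r]
      ring
    rw [Finset.sum_congr rfl (fun r _ => e5 r), Finset.sum_sub_distrib]
    simp only [mul_ite, mul_one, mul_zero, Finset.sum_ite_eq', Finset.mem_univ, if_true]
    field_simp
  have e6 : w l * (ε * (b q l - b p l) + (∑ k, w k * b q k) ^ (n - 1) / m q
        - (∑ k, w k * b p k) ^ (n - 1) / m p) =
      (ε / 2) * ∑ r, ∑ k, w k * (2 * b r k * mv p q l r k) + (1 / (n : ℝ)) *
        ∑ r, ((n : ℝ) * (∑ k, w k * b r k) ^ (n - 1) * (∑ k, w k * mv p q l r k)) / m r := by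
    rw [e3, e4]; ring
  rw [e6]
  exact h3

lemma mv_self (p q : J) (l : L) (r : J) (k : L) (hk : k ≠ l) : mv p q l r k = 0 := by
  simp [mv, hk]

/-- first order condition at a minimiser -/
lemma first_order (hn : 1 ≤ n) (inc : J → L → Prop) (w : L → ℝ) (m : J → ℝ) (ε : ℝ)
    (b : J → L → ℝ) (hb : b ∈ feas inc w) (hmin : ∀ b' ∈ feas inc w, Th n w m ε b ≤ Th n w m ε b')
    (l : L) (hl : 0 < w l) (p q : J) (hp : inc p l) (hq : inc q l) (hpos : 0 < b p l) :
    ε * b p l + (∑ k, w k * b p k) ^ (n - 1) / m p ≤ ε * b q l + (∑ k, w k * b q k) ^ (n - 1) / m q := by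
  classical
  by_cases hpq : p = q
  · subst hpq; exact le_rfl
  have hd := Th_deriv hn w m ε b p q l
  have h0 := nonneg_of_min hpos hd (by
    intro δ hδ hδ'
    have e0 : (fun r k => b r k + 0 * mv p q l r k) = b := by
      funext r k; ring
    rw [e0]
    apply hmin
    obtain ⟨hb1, hb2, hb3, hb4⟩ := hb
    have hqle : b q l + b p l ≤ 1 := by
      rw [← hb4 l hl]
      have hsub : ({q, p} : Finset J) ⊆ Finset.univ := Finset.subset_univ _
      have := Finset.sum_le_sum_of_subset_of_nonneg hsub (f := fun r => b r l)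
        (fun r _ _ => hb1 r l)
      rwa [Finset.sum_pair (Ne.symm hpq)] at this
    refine ⟨?_, ?_, ?_, ?_⟩
    · intro r k
      by_cases hk : k = l
      · subst hk
        simp only [mv, if_true]
        by_cases h1 : r = q
        · subst h1
          rw [if_neg (Ne.symm hpq)]
          have := hb1 r k
          simp only [if_true, sub_zero, mul_one]
          linarith
        · by_cases h2 : r = p
          · subst h2
            simp only [if_neg hpq, if_true]
            linarith
          · simp only [if_neg h1, if_neg h2, sub_zero, mul_zero, add_zero]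
            exact hb1 r k
      · simp only [mv_self p q l r k hk, mul_zero, add_zero]
        exact hb1 r k
    · intro r k
      by_cases hk : k = l
      · subst hk
        simp only [mv, if_true]
        by_cases h1 : r = q
        · subst h1
          rw [if_neg (Ne.symm hpq)]
          simp only [if_true, sub_zero, mul_one]
          linarith
        · by_cases h2 : r = p
          · subst h2
            simp only [if_neg hpq, if_true]
            have := hb2 r k
            linarith
          · simp only [if_neg h1, if_neg h2, sub_zero, mul_zero, add_zero]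
            exact hb2 r k
      · simp only [mv_self p q l r k hk, mul_zero, add_zero]
        exact hb2 r k
    · intro r k hrk
      by_cases hk : k = l
      · subst hk
        have h1 : r ≠ q := fun h => hrk (h ▸ hq)
        have h2 : r ≠ p := fun h => hrk (h ▸ hp)
        simp only [mv, if_true, if_neg h1, if_neg h2, sub_zero, mul_zero, add_zero]
        exact hb3 r k hrk
      · simp only [mv_self p q l r k hk, mul_zero, add_zero]
        exact hb3 r k hrk
    · intro k hk
      by_cases hkl : k = l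
      · subst hkl
        rw [Finset.sum_add_distrib, hb4 k hk]
        have : ∑ r, δ * mv p q k r k = 0 := by
          rw [← Finset.mul_sum]
          simp [mv]
        rw [this, add_zero]
      · simp only [mv_self p q l _ k hkl, mul_zero, add_zero]
        exact hb4 k hk)
  have h1 := (mul_nonneg_iff_of_pos_left hl).mp h0
  linarith

/-- Every competitor satisfies the key inequality. -/
theorem competitor [Nonempty J] (hn : 2 ≤ n)
    (x : J → (Fin n → ℝ)) (a u : L → (Fin n → ℝ)) (inc : J → L → Prop)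
    (hline : ∀ p l, inc p l → ∃ t : ℝ, ∀ i, x p i = a l i + t * u l i)
    (hinj : ∀ p q l, inc p l → inc q l → x p = x q → p = q)
    (w : L → ℝ) (hw : ∀ l, 0 ≤ w l) (hm : ∀ p, 0 < tw u inc w p)
    (b' : J → L → ℝ) (hb' : b' ∈ feas inc w) :
    1 ≤ (n : ℝ) ^ n * ∑ p, (∑ l, w l * b' p l) ^ n / tw u inc w p := by
  classical
  have hnR : (0 : ℝ) < n := by
    have : 0 < n := by omega
    exact_mod_cast this
  set C := ∑ p, ∑ l, w l * b' p l ^ 2 with hC
  -- inequality for every ε > 0
  have hmain : ∀ ε : ℝ, 0 < ε → 1 ≤ (n : ℝ) ^ n * (∑ p, (∑ l, w l * b' p l) ^ n / tw u inc w p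
      + n * (ε / 2) * C) := by
    intro ε hε
    obtain ⟨b, hb, hbmin⟩ := (feas_compact inc w).exists_isMinOn ⟨b', hb'⟩
      (Th_cont n w (tw u inc w) ε).continuousOn
    have hmin : ∀ b'' ∈ feas inc w, Th n w (tw u inc w) ε b ≤ Th n w (tw u inc w) ε b'' :=
      fun b'' h => hbmin h
    set B : J → ℝ := fun p => ∑ l, w l * b p l with hB
    have hB0 : ∀ p, 0 ≤ B p := fun p => Finset.sum_nonneg (fun l _ => mul_nonneg (hw l) (hb.1 p l))
    -- a good tuple with small product at each point
    have htup : ∀ p, ∃ τ : Fin n → L, good u inc p τ ∧ (∀ i, 0 < w (τ i)) ∧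
        ∏ i, b p (τ i) ≤ B p ^ n / tw u inc w p := by
      intro p
      by_contra hcon
      push Not at hcon
      have h1 : ∑ τ ∈ Finset.univ.filter (good u inc p), ∏ i, (w (τ i) * b p (τ i)) ≤ B p ^ n := by
        have : B p ^ n = ∑ τ : Fin n → L, ∏ i, (w (τ i) * b p (τ i)) := by
          rw [hB]
          simp only
          rw [Finset.sum_pow']
          simp
        rw [this]
        apply Finset.sum_le_sum_of_subset_of_nonneg (Finset.filter_subset _ _)
        intro τ _ _
        exact Finset.prod_nonneg (fun i _ => mul_nonneg (hw _) (hb.1 _ _))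
      have h2 : ∑ τ ∈ Finset.univ.filter (good u inc p), (∏ i, w (τ i)) * (B p ^ n / tw u inc w p)
          < ∑ τ ∈ Finset.univ.filter (good u inc p), ∏ i, (w (τ i) * b p (τ i)) := by
        apply Finset.sum_lt_sum
        · intro τ hτ
          rw [Finset.mem_filter] at hτ
          rw [Finset.prod_mul_distrib]
          by_cases hall : ∀ i, 0 < w (τ i)
          · exact mul_le_mul_of_nonneg_left (hcon τ hτ.2 hall).le
              (Finset.prod_nonneg (fun i _ => hw _))
          · push Not at hall
            obtain ⟨i, hi⟩ := hall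
            have : ∏ i, w (τ i) = 0 :=
              Finset.prod_eq_zero (Finset.mem_univ i) (le_antisymm hi (hw _))
            rw [this, zero_mul, zero_mul]
        · have hpos := hm p
          unfold tw at hpos
          obtain ⟨τ, hτ, hτpos⟩ : ∃ τ ∈ Finset.univ.filter (good u inc p), 0 < ∏ i, w (τ i) := by
            by_contra hc
            push Not at hc
            exact absurd hpos (not_lt.mpr (Finset.sum_nonpos hc))
          refine ⟨τ, hτ, ?_⟩
          have hall : ∀ i, 0 < w (τ i) := by
            intro i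
            rcases (hw (τ i)).lt_or_eq with h | h
            · exact h
            · exfalso
              rw [Finset.prod_eq_zero (Finset.mem_univ i) h.symm] at hτpos
              exact lt_irrefl _ hτpos
          rw [Finset.prod_mul_distrib]
          exact mul_lt_mul_of_pos_left (hcon τ (Finset.mem_filter.mp hτ).2 hall) hτpos
      rw [← Finset.sum_mul] at h2
      have h3 : (∑ τ ∈ Finset.univ.filter (good u inc p), ∏ i, w (τ i)) * (B p ^ n / tw u inc w p)
          = B p ^ n := by
        show tw u inc w p * (B p ^ n / tw u inc w p) = B p ^ n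
        field_simp [(hm p).ne']
      rw [h3] at h2
      exact absurd h1 (not_le.mpr h2)
    choose tup htgood htw htprod using htup
    -- additive form
    set α : J → ℝ := fun p => -(B p ^ (n - 1) / (ε * tw u inc w p)) with hα
    have hfo : ∀ l, 0 < w l → ∀ p q, inc p l → inc q l → 0 < b p l →
        b p l - α p ≤ b q l - α q := by
      intro l hl p q hp hq hpos
      have h1 := first_order (by omega) inc w (tw u inc w) ε b hb hmin l hl p q hp hq hpos
      have h2 : ε * (b p l - α p) ≤ ε * (b q l - α q) := by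
        have e1 : ∀ r, ε * (b r l - α r) = ε * b r l + B r ^ (n - 1) / tw u inc w r := by
          intro r
          rw [hα]
          have := (hm r).ne'
          simp only
          field_simp
          ring
        rw [e1 p, e1 q]
        exact h1
      exact le_of_mul_le_mul_left h2 hε
    have hθ : ∀ l, ∃ θ : ℝ, 0 < w l → ∀ p, inc p l → b p l = max 0 (θ + α p) := by
      intro l
      by_cases hl : 0 < w l
      · -- there is a point with positive mass
        obtain ⟨p0, hp0, hp0pos⟩ : ∃ p0, inc p0 l ∧ 0 < b p0 l := by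
          by_contra hc
          push Not at hc
          have h1 : ∑ p, b p l ≤ 0 := by
            apply Finset.sum_nonpos
            intro p _
            by_cases hp : inc p l
            · exact hc p hp
            · rw [hb.2.2.1 p l hp]
          rw [hb.2.2.2 l hl] at h1
          linarith
        refine ⟨b p0 l - α p0, fun _ p hp => ?_⟩
        have h1 := hfo l hl p0 p hp0 hp hp0pos
        by_cases hpp : 0 < b p l
        · have h2 := hfo l hl p p0 hp hp0 hpp
          have h3 : b p l = b p0 l - α p0 + α p := by linarith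
          rw [max_eq_right (by linarith)]
          exact h3
        · have h2 : b p l = 0 := le_antisymm (not_lt.mp hpp) (hb.1 p l)
          rw [h2] at h1 ⊢
          rw [max_eq_left (by linarith)]
      · exact ⟨0, fun h => absurd h hl⟩
    choose θ hθ using hθ
    have hreal := real_ineq x a u inc hline hinj tup (fun p i => (htgood p).1 i)
      (fun p => (htgood p).2) α θ b (fun p i q hq => hθ (tup p i) (htw p i) q hq)
      (fun p i => by
        rw [Finset.sum_filter]
        rw [← hb.2.2.2 (tup p i) (htw p i)]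
        apply Finset.sum_congr rfl
        intro q _
        by_cases hq : inc q (tup p i)
        · rw [if_pos hq]
        · rw [if_neg hq, hb.2.2.1 q _ hq])
    have h4 : ∑ p, ∏ i, b p (tup p i) ≤ ∑ p, B p ^ n / tw u inc w p :=
      Finset.sum_le_sum (fun p _ => htprod p)
    have h5 : ∑ p, B p ^ n / tw u inc w p ≤ n * Th n w (tw u inc w) ε b := by
      unfold Th
      rw [mul_add, ← mul_assoc, ← mul_assoc, mul_one_div_cancel hnR.ne', one_mul]
      have : 0 ≤ (n : ℝ) * (ε / 2) * ∑ p, ∑ l, w l * b p l ^ 2 := by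
        apply mul_nonneg (by positivity)
        exact Finset.sum_nonneg (fun p _ => Finset.sum_nonneg (fun l _ =>
          mul_nonneg (hw l) (sq_nonneg _)))
      linarith
    have h6 : (n : ℝ) * Th n w (tw u inc w) ε b ≤ n * Th n w (tw u inc w) ε b' :=
      mul_le_mul_of_nonneg_left (hmin b' hb') hnR.le
    have h7 : (n : ℝ) * Th n w (tw u inc w) ε b' =
        ∑ p, (∑ l, w l * b' p l) ^ n / tw u inc w p + n * (ε / 2) * C := by
      unfold Th
      rw [mul_add, ← mul_assoc, ← mul_assoc, mul_one_div_cancel hnR.ne', one_mul]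
      ring
    calc (1 : ℝ) ≤ (n : ℝ) ^ n * ∑ p, ∏ i, b p (tup p i) := hreal
      _ ≤ (n : ℝ) ^ n * (∑ p, (∑ l, w l * b' p l) ^ n / tw u inc w p + n * (ε / 2) * C) := by
          apply mul_le_mul_of_nonneg_left _ (by positivity)
          rw [← h7]
          exact h4.trans (h5.trans h6)
  -- let ε → 0
  by_contra hcon
  push Not at hcon
  set X := ∑ p, (∑ l, w l * b' p l) ^ n / tw u inc w p with hX
  have hC0 : 0 ≤ C := Finset.sum_nonneg (fun p _ => Finset.sum_nonneg (fun l _ =>
          mul_nonneg (hw l) (sq_nonneg _)))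
  have hgap : 0 < 1 - (n : ℝ) ^ n * X := by linarith
  have hK : 0 < (n : ℝ) ^ n * (n * C + 1) := by positivity
  have h1 := hmain ((1 - (n : ℝ) ^ n * X) / ((n : ℝ) ^ n * (n * C + 1))) (by positivity)
  have h2 : (n : ℝ) ^ n * (X + n * ((1 - (n : ℝ) ^ n * X) / ((n : ℝ) ^ n * (n * C + 1)) / 2) * C)
      = (n : ℝ) ^ n * X + (1 - (n : ℝ) ^ n * X) * ((n * C) / (2 * (n * C + 1))) := by
    field_simp
  rw [h2] at h1
  have h3 : (n * C) / (2 * (n * C + 1)) < 1 := by
    rw [div_lt_one (by positivity)]
    nlinarith [mul_nonneg hnR.le hC0]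
  nlinarith

/-- restriction of the weights to a set of lines -/
def wT (w : L → ℝ) (T : Finset L) : L → ℝ := by
  classical
  exact fun l => if l ∈ T then w l else 0

omit [Fintype J] in
lemma tw_nonneg (u : L → (Fin n → ℝ)) (inc : J → L → Prop) (w : L → ℝ) (hw : ∀ l, 0 ≤ w l) (p : J) :
    0 ≤ tw u inc w p :=
  Finset.sum_nonneg (fun τ _ => Finset.prod_nonneg (fun i _ => hw (τ i)))

omit [Fintype J] in
lemma tw_mono (u : L → (Fin n → ℝ)) (inc : J → L → Prop) (w w' : L → ℝ) (hw : ∀ l, 0 ≤ w l)
    (hww : ∀ l, w l ≤ w' l) (p : J) : tw u inc w p ≤ tw u inc w' p :=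
  Finset.sum_le_sum (fun τ _ => Finset.prod_le_prod (fun i _ => hw (τ i)) (fun i _ => hww (τ i)))

open Classical in
/-- weight of the independent tuples through `p` using the line `l` -/
def tl (u : L → (Fin n → ℝ)) (inc : J → L → Prop) (w : L → ℝ) (p : J) (l : L) : ℝ :=
  ∑ τ ∈ Finset.univ.filter (good u inc p), if (∃ i, τ i = l) then ∏ i, w (τ i) else 0

omit [Fintype J] in
lemma tl_nonneg (u : L → (Fin n → ℝ)) (inc : J → L → Prop) (w : L → ℝ) (hw : ∀ l, 0 ≤ w l) (p : J)
    (l : L) : 0 ≤ tl u inc w p l := by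
  apply Finset.sum_nonneg
  intro τ _
  split_ifs
  · exact Finset.prod_nonneg (fun i _ => hw (τ i))
  · exact le_rfl

omit [Fintype J] in
lemma tl_le (u : L → (Fin n → ℝ)) (inc : J → L → Prop) (w : L → ℝ) (hw : ∀ l, 0 ≤ w l) (p : J)
    (l : L) : tl u inc w p l ≤ tw u inc w p := by
  apply Finset.sum_le_sum
  intro τ _
  split_ifs
  · exact le_rfl
  · exact Finset.prod_nonneg (fun i _ => hw (τ i))

omit [Fintype J] in
lemma tw_erase (u : L → (Fin n → ℝ)) (inc : J → L → Prop) (w : L → ℝ) (T T' : Finset L)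
    (p : J) (l : L) (hT' : ∀ k, k ∈ T' ↔ k ∈ T ∧ k ≠ l) :
    tw u inc (wT w T') p = tw u inc (wT w T) p - tl u inc (wT w T) p l := by
  classical
  unfold tw tl
  rw [← Finset.sum_sub_distrib]
  apply Finset.sum_congr rfl
  intro τ _
  by_cases h : ∃ i, τ i = l
  · rw [if_pos h, sub_self]
    obtain ⟨i, hi⟩ := h
    apply Finset.prod_eq_zero (Finset.mem_univ i)
    rw [hi]
    simp [wT, hT']
  · rw [if_neg h, sub_zero]
    apply Finset.prod_congr rfl
    intro i _
    have hne : τ i ≠ l := fun h' => h ⟨i, h'⟩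
    simp [wT, hT', hne]

omit [Fintype J] in
lemma sum_tl (u : L → (Fin n → ℝ)) (inc : J → L → Prop) (w : L → ℝ) (p : J) :
    ∑ l, tl u inc w p l = n * tw u inc w p := by
  classical
  unfold tl tw
  rw [Finset.sum_comm, Finset.mul_sum]
  apply Finset.sum_congr rfl
  intro τ hτ
  rw [Finset.mem_filter] at hτ
  have hinj : Function.Injective τ := by
    intro i j hij
    have h1 := hτ.2.2.injective
    apply h1
    simp only
    rw [hij]
  have h2 : ∀ l, (if (∃ i, τ i = l) then ∏ i, w (τ i) else 0) =
      ∑ i, if τ i = l then ∏ i, w (τ i) else 0 := by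
    intro l
    by_cases h : ∃ i, τ i = l
    · rw [if_pos h]
      obtain ⟨i, hi⟩ := h
      rw [Finset.sum_eq_single i]
      · rw [if_pos hi]
      · intro j _ hj
        rw [if_neg]
        intro hj'
        exact hj (hinj (hj'.trans hi.symm))
      · intro h; exact absurd (Finset.mem_univ i) h
    · rw [if_neg h]
      symm
      apply Finset.sum_eq_zero
      intro i _
      rw [if_neg]
      intro h'
      exact h ⟨i, h'⟩
  calc ∑ l, (if (∃ i, τ i = l) then ∏ i, w (τ i) else 0)
      = ∑ l, ∑ i, (if τ i = l then ∏ i, w (τ i) else 0) := Finset.sum_congr rfl (fun l _ => h2 l)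
    _ = ∑ i : Fin n, ∏ i, w (τ i) := by
        rw [Finset.sum_comm]
        apply Finset.sum_congr rfl
        intro i _
        simp
    _ = n * ∏ i, w (τ i) := by simp

/-- **Weighted joints theorem.** -/
theorem weighted_joints (hn : 2 ≤ n)
    (x : J → (Fin n → ℝ)) (a u : L → (Fin n → ℝ)) (inc : J → L → Prop)
    (hline : ∀ p l, inc p l → ∃ t : ℝ, ∀ i, x p i = a l i + t * u l i)
    (hinj : ∀ p q l, inc p l → inc q l → x p = x q → p = q)
    (w : L → ℝ) (hw : ∀ l, 0 ≤ w l) :
    (∑ p, (tw u inc w p) ^ ((n : ℝ) - 1)⁻¹) ^ (n - 1) ≤ (2 * n ^ 2 * ∑ l, w l) ^ n := by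
  classical
  set e : ℝ := ((n : ℝ) - 1)⁻¹ with he
  have hn2 : (2 : ℝ) ≤ n := by exact_mod_cast hn
  have hn1 : (1 : ℝ) ≤ (n : ℝ) - 1 := by linarith
  have he0 : 0 < e := inv_pos.mpr (by linarith)
  have he1 : e ≤ 1 := inv_le_one_of_one_le₀ hn1
  set Om : (L → ℝ) → ℝ := fun w' => ∑ p, (tw u inc w' p) ^ e with hOm
  set W := ∑ l, w l with hW
  have hW0 : 0 ≤ W := Finset.sum_nonneg (fun l _ => hw l)
  have hOm0 : ∀ w' : L → ℝ, (∀ l, 0 ≤ w' l) → 0 ≤ Om w' := fun w' hw' =>
    Finset.sum_nonneg (fun p _ => Real.rpow_nonneg (tw_nonneg u inc w' hw' p) _)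
  rcases (hOm0 w hw).eq_or_lt with hz | hpos
  · show (Om w) ^ (n - 1) ≤ _
    rw [← hz, zero_pow (by omega)]
    positivity
  -- W > 0
  have hWpos : 0 < W := by
    rcases hW0.eq_or_lt with h | h
    · exfalso
      have hall : ∀ l, w l = 0 := fun l =>
        (Finset.sum_eq_zero_iff_of_nonneg (fun l _ => hw l)).mp h.symm l (Finset.mem_univ l)
      have : Om w = 0 := by
        apply Finset.sum_eq_zero
        intro p _
        have : tw u inc w p = 0 := by
          apply Finset.sum_eq_zero
          intro τ _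
          have hne : (Finset.univ : Finset (Fin n)).Nonempty := ⟨⟨0, by omega⟩, Finset.mem_univ _⟩
          obtain ⟨i, hi⟩ := hne
          exact Finset.prod_eq_zero hi (hall _)
        rw [this, Real.zero_rpow he0.ne']
      rw [this] at hpos
      exact lt_irrefl _ hpos
    · exact h
  set κ := Om w / (2 * W) with hκ
  have hκ0 : 0 < κ := by positivity
  -- choose the best set of lines
  obtain ⟨T, hT⟩ := Finite.exists_max (fun T : Finset L => Om (wT w T) - κ * ∑ l ∈ T, w l)
  set w' := wT w T with hw'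
  have hwT0 : ∀ S : Finset L, ∀ l, 0 ≤ wT w S l := by
    intro S l
    simp only [wT]
    split_ifs
    · exact hw l
    · exact le_rfl
  have hwTle : ∀ S : Finset L, ∀ l, wT w S l ≤ w l := by
    intro S l
    simp only [wT]
    split_ifs
    · exact le_rfl
    · exact hw l
  have hOmle : Om w' ≤ Om w := by
    apply Finset.sum_le_sum
    intro p _
    exact Real.rpow_le_rpow (tw_nonneg u inc w' (hwT0 T) p)
      (tw_mono u inc w' w (hwT0 T) (hwTle T) p) he0.le
  have hOm' : Om w / 2 ≤ Om w' := by
    have h1 := hT Finset.univ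
    have h2 : wT w Finset.univ = w := by
      funext l; simp [wT]
    simp only [h2] at h1
    have h3 : κ * ∑ l, w l = Om w / 2 := by
      rw [hκ]; field_simp; rfl
    rw [h3] at h1
    have h4 : 0 ≤ κ * ∑ l ∈ T, w l :=
      mul_nonneg hκ0.le (Finset.sum_nonneg (fun l _ => hw l))
    linarith
  -- the points of positive tuple weight
  have hex : ∃ p, 0 < tw u inc w' p := by
    by_contra hcon
    push Not at hcon
    have : Om w' = 0 := by
      apply Finset.sum_eq_zero
      intro p _
      rw [le_antisymm (hcon p) (tw_nonneg u inc w' (hwT0 T) p), Real.zero_rpow he0.ne']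
    linarith
  let J' := {p : J // 0 < tw u inc w' p}
  obtain ⟨p0, hp0⟩ := hex
  have : Nonempty J' := ⟨⟨p0, hp0⟩⟩
  set Jp : J → ℝ := fun p => (tw u inc w' p) ^ e with hJp
  have hJp0 : ∀ p, 0 ≤ Jp p := fun p => Real.rpow_nonneg (tw_nonneg u inc w' (hwT0 T) p) _
  set σ : J → L → ℝ := fun p l => tl u inc w' p l / tw u inc w' p with hσ
  have hσ0 : ∀ p l, 0 ≤ σ p l := fun p l =>
    div_nonneg (tl_nonneg u inc w' (hwT0 T) p l) (tw_nonneg u inc w' (hwT0 T) p)
  have hσ1 : ∀ p l, σ p l ≤ 1 := fun p l =>
    div_le_one_of_le₀ (tl_le u inc w' (hwT0 T) p l) (tw_nonneg u inc w' (hwT0 T) p)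
  set Ol : L → ℝ := fun l => ∑ p, σ p l * Jp p with hOl
  have hkey : ∀ l, 0 < w' l → κ * w' l ≤ Ol l := by
    intro l hl
    have hlT : l ∈ T := by
      by_contra hcon
      simp [hw', wT, hcon] at hl
    have hwl : w' l = w l := by simp [hw', wT, hlT]
    have h1 := hT (T.erase l)
    rw [← Finset.add_sum_erase T w hlT] at h1
    have h2 : κ * w l ≤ Om (wT w T) - Om (wT w (T.erase l)) := by linarith
    rw [hwl]
    refine h2.trans ?_
    rw [hOm]
    simp only
    rw [← Finset.sum_sub_distrib]
    apply Finset.sum_le_sum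
    intro p _
    rw [tw_erase u inc w T (T.erase l) p l (by intro k; rw [Finset.mem_erase]; tauto)]
    have htw0 := tw_nonneg u inc w' (hwT0 T) p
    rcases htw0.eq_or_lt with h | h
    · rw [← hw', ← h, zero_sub, Real.zero_rpow he0.ne']
      have h3 : tl u inc w' p l = 0 := by
        have h4 := tl_le u inc w' (hwT0 T) p l
        rw [← h] at h4
        exact le_antisymm h4 (tl_nonneg u inc w' (hwT0 T) p l)
      rw [h3, neg_zero, Real.zero_rpow he0.ne', sub_zero]
      exact mul_nonneg (hσ0 p l) (hJp0 p)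
    · rw [← hw']
      have h3 : tw u inc w' p - tl u inc w' p l = (1 - σ p l) * tw u inc w' p := by
        rw [hσ]; field_simp
      rw [h3, Real.mul_rpow (by linarith [hσ1 p l]) h.le]
      have h4 : 1 - σ p l ≤ (1 - σ p l) ^ e := by
        have h5 : 0 ≤ 1 - σ p l := by linarith [hσ1 p l]
        have h6 : 1 - σ p l ≤ 1 := by linarith [hσ0 p l]
        calc 1 - σ p l = (1 - σ p l) ^ (1 : ℝ) := (Real.rpow_one _).symm
          _ ≤ (1 - σ p l) ^ e := Real.rpow_le_rpow_of_exponent_ge' h5 h6 he0.le he1
      have h7 := mul_le_mul_of_nonneg_right h4 (hJp0 p)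
      simp only [hJp] at h7 ⊢
      nlinarith
  have hOl_eq : ∀ l, Ol l = ∑ p : J', σ p.1 l * Jp p.1 := by
    intro l
    rw [hOl]
    simp only
    rw [← Finset.sum_subtype (Finset.univ.filter (fun p => 0 < tw u inc w' p)) (by simp)
      (fun p => σ p l * Jp p)]
    rw [Finset.sum_filter_of_ne]
    intro p _ hne
    by_contra hcon
    have h0 : tw u inc w' p = 0 := le_antisymm (not_lt.mp hcon) (tw_nonneg u inc w' (hwT0 T) p)
    apply hne
    simp [hJp, h0, Real.zero_rpow he0.ne']
  -- the competitor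
  set b' : J' → L → ℝ := fun p l => σ p.1 l * Jp p.1 / Ol l with hb'
  have hOl0 : ∀ l, 0 ≤ Ol l := fun l =>
    Finset.sum_nonneg (fun p _ => mul_nonneg (hσ0 p l) (hJp0 p))
  have hfeas : b' ∈ feas (fun (p : J') l => inc p.1 l) w' := by
    refine ⟨?_, ?_, ?_, ?_⟩
    · intro p l
      exact div_nonneg (mul_nonneg (hσ0 _ _) (hJp0 _)) (hOl0 l)
    · intro p l
      apply div_le_one_of_le₀ _ (hOl0 l)
      exact Finset.single_le_sum (f := fun p => σ p l * Jp p)
        (fun p _ => mul_nonneg (hσ0 p l) (hJp0 p)) (Finset.mem_univ p.1)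
    · intro p l hpl
      have : tl u inc w' p.1 l = 0 := by
        apply Finset.sum_eq_zero
        intro τ hτ
        rw [Finset.mem_filter] at hτ
        rw [if_neg]
        rintro ⟨i, hi⟩
        exact absurd (hi ▸ hτ.2.1 i) hpl
      simp [hb', hσ, this]
    · intro l hl
      have hpos' : 0 < Ol l := lt_of_lt_of_le (mul_pos hκ0 hl) (hkey l hl)
      rw [← Finset.sum_div, ← hOl_eq l, div_self hpos'.ne']
  have hcomp := competitor hn (fun p : J' => x p.1) a u (fun (p : J') l => inc p.1 l)
    (fun p l h => hline p.1 l h) (fun p q l hp hq hpq => Subtype.ext (hinj p.1 q.1 l hp hq hpq))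
    w' (hwT0 T) (fun p => p.2) b' hfeas
  -- bound the competitor
  have hB : ∀ p : J', (∑ l, w' l * b' p l) ≤ n * Jp p.1 / κ := by
    intro p
    have h1 : ∀ l, w' l * b' p l ≤ (σ p.1 l * Jp p.1) / κ := by
      intro l
      rcases (hwT0 T l).eq_or_lt with h | h
      · have hz : w' l = 0 := h.symm
        rw [hz, zero_mul]
        exact div_nonneg (mul_nonneg (hσ0 _ _) (hJp0 _)) hκ0.le
      · have h2 := hkey l h
        have h3 : 0 < Ol l := lt_of_lt_of_le (mul_pos hκ0 h) h2
        rw [hb']
        simp only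
        rw [← mul_div_assoc, div_le_div_iff₀ h3 hκ0]
        have h4 := mul_le_mul_of_nonneg_left h2 (mul_nonneg (hσ0 p.1 l) (hJp0 p.1))
        linarith
    calc ∑ l, w' l * b' p l ≤ ∑ l, (σ p.1 l * Jp p.1) / κ := Finset.sum_le_sum (fun l _ => h1 l)
      _ = (∑ l, σ p.1 l) * Jp p.1 / κ := by rw [← Finset.sum_div, ← Finset.sum_mul]
      _ = n * Jp p.1 / κ := by
          congr 2
          rw [hσ]
          simp only
          rw [← Finset.sum_div, sum_tl]
          field_simp [p.2.ne']
  have hterm : ∀ p : J', (∑ l, w' l * b' p l) ^ n / tw u inc w' p.1 ≤ (n / κ) ^ n * Jp p.1 := by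
    intro p
    have h0 : 0 ≤ ∑ l, w' l * b' p l :=
      Finset.sum_nonneg (fun l _ => mul_nonneg (hwT0 T l) (hfeas.1 p l))
    rw [div_le_iff₀ p.2]
    calc (∑ l, w' l * b' p l) ^ n ≤ (n * Jp p.1 / κ) ^ n := pow_le_pow_left₀ h0 (hB p) n
      _ = (n / κ) ^ n * (Jp p.1) ^ n := by rw [← mul_pow]; congr 1; ring
      _ = (n / κ) ^ n * Jp p.1 * tw u inc w' p.1 := by
          rw [mul_assoc]
          congr 1
          have h1 : (Jp p.1) ^ n = Jp p.1 * (Jp p.1) ^ (n - 1) := by
            rw [← pow_succ']
            congr 1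
            omega
          rw [h1]
          congr 1
          rw [hJp]
          simp only
          rw [← Real.rpow_natCast, ← Real.rpow_mul p.2.le]
          have h2 : e * ((n - 1 : ℕ) : ℝ) = 1 := by
            rw [Nat.cast_sub (by omega), Nat.cast_one, he]
            exact inv_mul_cancel₀ (by linarith)
          rw [h2, Real.rpow_one]
  have hsumJ : ∑ p : J', Jp p.1 ≤ Om w := by
    refine le_trans ?_ hOmle
    rw [← Finset.sum_subtype (Finset.univ.filter (fun p => 0 < tw u inc w' p)) (by simp) Jp]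
    exact Finset.sum_le_sum_of_subset_of_nonneg (Finset.filter_subset _ _) (fun p _ _ => hJp0 p)
  have hfinal : (1 : ℝ) ≤ (n : ℝ) ^ n * ((n / κ) ^ n * Om w) := by
    refine hcomp.trans ?_
    apply mul_le_mul_of_nonneg_left _ (by positivity)
    calc ∑ p : J', (∑ l, w' l * b' p l) ^ n / tw u (fun (p : J') l => inc p.1 l) w' p
        ≤ ∑ p : J', (n / κ) ^ n * Jp p.1 := Finset.sum_le_sum (fun p _ => hterm p)
      _ = (n / κ) ^ n * ∑ p : J', Jp p.1 := by rw [Finset.mul_sum]
      _ ≤ (n / κ) ^ n * Om w := mul_le_mul_of_nonneg_left hsumJ (by positivity)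
  -- conclude
  show (Om w) ^ (n - 1) ≤ _
  have h1 : (n : ℝ) ^ n * ((n / κ) ^ n * Om w) = (2 * n ^ 2 * W) ^ n / (Om w) ^ (n - 1) := by
    have h2 : (Om w) ^ n = (Om w) ^ (n - 1) * Om w := by
      rw [← pow_succ]; congr 1; omega
    rw [hκ]
    have h3 : (n : ℝ) / (Om w / (2 * W)) = (2 * n * W) / Om w := by field_simp
    rw [h3, div_pow, h2]
    field_simp
    rw [← mul_pow]
    congr 1
    ring
  rw [h1, le_div_iff₀ (by positivity), one_mul] at hfinal
  exact hfinal

end

end Pool.Agent.Helper733.WJ
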