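import Pool.Agent.Helper733.Defs
import Pool.Agent.Helper733.Main

/-!
From the real inequality to the statement about `faceContent` in `ENNReal`.
-/

set_option autoImplicit false

namespace Pool.Agent.Helper733.Chain

open scoped BigOperators RealInnerProductSpace MeasureTheory
open MeasureTheory Module Measure

noncomputable section

/-- the constant of one step; it depends on `k` only -/
def stepC (k : ℕ) : ENNReal :=
  ENNReal.ofReal (((k + 1 : ℕ) : ℝ) * (2 * ((k + 1 + 1 : ℕ) : ℝ) ^ 2)) ^ ((k : ℝ)⁻¹)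

lemma stepC_lt_top (k : ℕ) : stepC k < ⊤ := by
  unfold stepC
  exact ENNReal.rpow_lt_top_of_nonneg (by positivity) ENNReal.ofReal_ne_top

lemma finite_faces {d : ℕ} (P : Set (EuclideanSpace ℝ (Fin d))) (hP : IsPolytope d P) (k : ℕ) :
    Finite {F : Set (EuclideanSpace ℝ (Fin d)) // IsFace k P F} := by
  obtain ⟨⟨S, rfl⟩, -⟩ := hP
  have h := Faces.faces_finite S
  exact (h.subset (fun F (hF : IsFace k _ F) => hF.2.1)).to_subtype

lemma face_lt_top {d : ℕ} (P : Set (EuclideanSpace ℝ (Fin d))) (hP : IsPolytope d P) (k : ℕ)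
    (F : Set (EuclideanSpace ℝ (Fin d))) (hF : IsFace k P F) :
    (μHE[k] : Measure (EuclideanSpace ℝ (Fin d))) F < ⊤ := by
  obtain ⟨⟨S, rfl⟩, -⟩ := hP
  have hPc : IsCompact (convexHull ℝ (S : Set (EuclideanSpace ℝ (Fin d)))) :=
    S.finite_toSet.isCompact_convexHull ℝ
  exact Faces.muHE_lt_top F (hPc.isBounded.subset hF.2.1.subset) k hF.2.2

lemma faceContent_lt_top {d : ℕ} (P : Set (EuclideanSpace ℝ (Fin d))) (hP : IsPolytope d P)
    (k : ℕ) : faceContent k P < ⊤ := by
  have := finite_faces P hP k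
  have := Fintype.ofFinite {F : Set (EuclideanSpace ℝ (Fin d)) // IsFace k P F}
  unfold faceContent
  rw [tsum_fintype, ENNReal.sum_lt_top]
  intro F _
  exact face_lt_top P hP k F.1 F.2

lemma faceContent_toReal {d : ℕ} (P : Set (EuclideanSpace ℝ (Fin d))) (hP : IsPolytope d P)
    (k : ℕ) [Fintype {F : Set (EuclideanSpace ℝ (Fin d)) // IsFace k P F}] :
    (faceContent k P).toReal = ∑ F : {F : Set (EuclideanSpace ℝ (Fin d)) // IsFace k P F},
      ((μHE[k] : Measure (EuclideanSpace ℝ (Fin d))) F.1).toReal := by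
  unfold faceContent
  rw [tsum_fintype, ENNReal.toReal_sum]
  intro F _
  exact (face_lt_top P hP k F.1 F.2).ne

/-- one step: `V_{k+1}(P)^(1/(k+1)) ≤ C_k V_k(P)^(1/k)` -/
lemma step {d : ℕ} (P : Set (EuclideanSpace ℝ (Fin d))) (hP : IsPolytope d P)
    (k : ℕ) (hk : 1 ≤ k) :
    faceContent (k + 1) P ^ ((1 : ℝ) / ((k + 1 : ℕ) : ℝ)) ≤
      stepC k * faceContent k P ^ ((1 : ℝ) / (k : ℝ)) := by
  have hkpos : (0 : ℝ) < k := by exact_mod_cast hk
  have hfin1 := finite_faces P hP (k + 1)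
  have hfin0 := finite_faces P hP k
  have hft1 := Fintype.ofFinite {F : Set (EuclideanSpace ℝ (Fin d)) // IsFace (k + 1) P F}
  have hft0 := Fintype.ofFinite {F : Set (EuclideanSpace ℝ (Fin d)) // IsFace k P F}
  rw [one_div, one_div]
  rcases isEmpty_or_nonempty {F : Set (EuclideanSpace ℝ (Fin d)) // IsFace (k + 1) P F} with he | hne
  · have h0 : faceContent (k + 1) P = 0 := by
      unfold faceContent
      rw [tsum_empty]
    rw [h0, ENNReal.zero_rpow_of_pos (by positivity)]
    exact bot_le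
  obtain ⟨S, hS⟩ := hP.1
  have hmain := Main.main_real S k hk
    (fun F : {F : Set (EuclideanSpace ℝ (Fin d)) // IsFace (k + 1) P F} => F.1)
    (fun F : {F : Set (EuclideanSpace ℝ (Fin d)) // IsFace k P F} => F.1)
    Subtype.val_injective Subtype.val_injective
    (by
      intro F
      rw [← hS]
      exact ⟨fun h => ⟨⟨F, h⟩, rfl⟩, fun ⟨F', hF'⟩ => hF' ▸ F'.2⟩)
    (by
      intro F
      rw [← hS]
      exact ⟨fun h => ⟨⟨F, h⟩, rfl⟩, fun ⟨F', hF'⟩ => hF' ▸ F'.2⟩)
  rw [← faceContent_toReal P hP (k + 1), ← faceContent_toReal P hP k] at hmain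
  have hA := (faceContent_lt_top P hP (k + 1)).ne
  have hB := (faceContent_lt_top P hP k).ne
  set A := faceContent (k + 1) P with hAdef
  set B := faceContent k P with hBdef
  have h1 : A ^ (((k + 1 : ℕ) : ℝ)⁻¹) = ENNReal.ofReal (A.toReal ^ (((k + 1 : ℕ) : ℝ)⁻¹)) := by
    rw [← ENNReal.ofReal_rpow_of_nonneg ENNReal.toReal_nonneg (by positivity), ENNReal.ofReal_toReal hA]
  rw [h1]
  refine (ENNReal.ofReal_le_ofReal hmain).trans ?_
  rw [← ENNReal.ofReal_rpow_of_nonneg (by positivity) (by positivity)]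
  have h2 : ((k + 1 : ℕ) : ℝ) * (2 * ((k + 1 + 1 : ℕ) : ℝ) ^ 2 * B.toReal) =
      (((k + 1 : ℕ) : ℝ) * (2 * ((k + 1 + 1 : ℕ) : ℝ) ^ 2)) * B.toReal := by ring
  rw [h2, ENNReal.ofReal_mul (by positivity), ENNReal.ofReal_toReal hB,
    ENNReal.mul_rpow_of_nonneg _ _ (by positivity)]
  exact le_of_eq rfl

/-- the constant for the pair `(j + t, j)` -/
def chainC (j : ℕ) : ℕ → ENNReal
  | 0 => 1
  | t + 1 => stepC (j + t) * chainC j t

lemma chainC_lt_top (j t : ℕ) : chainC j t < ⊤ := by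
  induction t with
  | zero => simp [chainC]
  | succ t ih => exact ENNReal.mul_lt_top (stepC_lt_top _) ih

lemma chain {d : ℕ} (P : Set (EuclideanSpace ℝ (Fin d))) (hP : IsPolytope d P)
    (j : ℕ) (hj : 1 ≤ j) (t : ℕ) :
    faceContent (j + t) P ^ ((1 : ℝ) / ((j + t : ℕ) : ℝ)) ≤
      chainC j t * faceContent j P ^ ((1 : ℝ) / (j : ℝ)) := by
  induction t with
  | zero => simp [chainC]
  | succ t ih =>
    have h1 := step P hP (j + t) (by omega)
    have h2 : j + (t + 1) = j + t + 1 := by ring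
    rw [h2]
    refine h1.trans ?_
    show _ ≤ stepC (j + t) * chainC j t * _
    rw [mul_assoc]
    exact mul_le_mul_right ih _

/-- the top-dimensional face is `P` itself, with positive volume -/
lemma faceContent_top_pos {d : ℕ} (P : Set (EuclideanSpace ℝ (Fin d))) (hP : IsPolytope d P) :
    0 < faceContent d P := by
  have hint := hP.2
  have hface : IsFace d P P := by
    refine ⟨hint.mono interior_subset, IsExposed.refl P, ?_⟩
    have h1 : vectorSpan ℝ P = ⊤ := by
      rw [← direction_affineSpan]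
      have h2 : affineSpan ℝ P = ⊤ := by
        have h3 : affineSpan ℝ (interior P) = ⊤ := isOpen_interior.affineSpan_eq_top hint
        exact top_le_iff.mp (h3 ▸ affineSpan_mono ℝ interior_subset)
      rw [h2, AffineSubspace.direction_top]
    rw [h1, finrank_top, finrank_euclideanSpace, Fintype.card_fin]
  have hvol : 0 < (μHE[d] : Measure (EuclideanSpace ℝ (Fin d))) P := by
    have h1 : (μHE[d] : Measure (EuclideanSpace ℝ (Fin d))) = volume := by
      exact EuclideanSpace.euclideanHausdorffMeasure_eq_volume d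
    rw [h1]
    exact (measure_pos_of_nonempty_interior _ hint)
  unfold faceContent
  refine lt_of_lt_of_le hvol ?_
  exact ENNReal.le_tsum (⟨P, hface⟩ : {F : Set (EuclideanSpace ℝ (Fin d)) // IsFace d P F})

lemma faceContent_pos {d : ℕ} (P : Set (EuclideanSpace ℝ (Fin d))) (hP : IsPolytope d P)
    (k : ℕ) (hk : 1 ≤ k) (hkd : k ≤ d) : 0 < faceContent k P := by
  rw [pos_iff_ne_zero]
  intro h0
  obtain ⟨t, rfl⟩ := Nat.exists_eq_add_of_le hkd
  have h1 := chain P hP k hk t
  have hkpos : (0 : ℝ) < k := by exact_mod_cast hk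
  rw [h0, ENNReal.zero_rpow_of_pos (by positivity), mul_zero] at h1
  have h2 := faceContent_top_pos P hP
  have h3 : (0 : ℝ) < 1 / ((k + t : ℕ) : ℝ) := by
    have : (0 : ℝ) < ((k + t : ℕ) : ℝ) := by exact_mod_cast (by omega : 0 < k + t)
    positivity
  have h4 := ENNReal.rpow_pos h2 (faceContent_lt_top P hP (k + t)).ne (p := 1 / ((k + t : ℕ) : ℝ))
  exact absurd h1 (not_le.mpr h4)

lemma ratioSup_le (d i j : ℕ) (hj : 1 ≤ j) (hji : j ≤ i) : ratioSup d i j ≤ chainC j (i - j) := by
  unfold ratioSup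
  refine iSup₂_le fun P hP => ?_
  apply ENNReal.div_le_of_le_mul
  have h := chain P hP j hj (i - j)
  rwa [Nat.add_sub_cancel' hji] at h

end

end Pool.Agent.Helper733.Chain
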