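import Mathlib

/-!
Convex polytopes, their faces, and the sums `V_k` of the volumes of the `k`-dimensional faces.
-/

set_option autoImplicit false

namespace Pool.Agent.Helper733

open MeasureTheory

/-- `P` is a `d`-polytope: the convex hull of a finite set of points of `ℝ^d`, with nonempty
interior. -/
def IsPolytope (d : ℕ) (P : Set (EuclideanSpace ℝ (Fin d))) : Prop :=
  (∃ S : Finset (EuclideanSpace ℝ (Fin d)), P = convexHull ℝ (S : Set (EuclideanSpace ℝ (Fin d)))) ∧
    (interior P).Nonempty

/-- `F` is a `k`-dimensional face of `P`: a nonempty exposed subset of `P` (the set where a linear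
functional attains its maximum over `P`; the zero functional gives `P` itself) whose affine span
has dimension `k`. -/
def IsFace {d : ℕ} (k : ℕ) (P F : Set (EuclideanSpace ℝ (Fin d))) : Prop :=
  F.Nonempty ∧ IsExposed ℝ P F ∧ Module.finrank ℝ (vectorSpan ℝ F) = k

/-- `V_k(P)`: the sum, over all `k`-dimensional faces `F` of `P`, of the `k`-dimensional volume of
`F`. -/
noncomputable def faceContent {d : ℕ} (k : ℕ) (P : Set (EuclideanSpace ℝ (Fin d))) : ENNReal :=
  ∑' F : {F : Set (EuclideanSpace ℝ (Fin d)) // IsFace k P F}, μHE[k] F.1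

/-- `c(d,i,j)`: the supremum over all `d`-polytopes `P` of `V_i(P)^(1/i) / V_j(P)^(1/j)`. -/
noncomputable def ratioSup (d i j : ℕ) : ENNReal :=
  ⨆ (P : Set (EuclideanSpace ℝ (Fin d))) (_ : IsPolytope d P),
    faceContent i P ^ ((1 : ℝ) / i) / faceContent j P ^ ((1 : ℝ) / j)

end Pool.Agent.Helper733
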