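import Pool.Agent.Helper733.Faces
import Pool.Agent.Helper733.GI

/-!
The facet inequality for a face of a polytope.
-/

set_option autoImplicit false

namespace Pool.Agent.Helper733.FaceIneq

open scoped BigOperators RealInnerProductSpace MeasureTheory
open MeasureTheory Module Measure

noncomputable section

/-- exit point of a ray -/
lemma exit_point {W : Type*} [NormedAddCommGroup W] [NormedSpace ℝ W] (K : Set W)
    (hKc : IsCompact K) (hKconv : Convex ℝ K) (x : W) (hx : x ∈ interior K) (y : W) (hy : y ≠ 0) :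
    ∃ t : ℝ, x + t • y ∈ K ∧ ∃ f : StrongDual ℝ W, (∀ z ∈ K, f z ≤ f (x + t • y)) ∧ 0 < f y := by
  -- the set of times
  have hcl : IsClosed {t : ℝ | 0 ≤ t ∧ x + t • y ∈ K} := by
    apply IsClosed.inter
    · exact isClosed_le continuous_const continuous_id
    · exact hKc.isClosed.preimage (by fun_prop)
  have hbd : Bornology.IsBounded {t : ℝ | 0 ≤ t ∧ x + t • y ∈ K} := by
    obtain ⟨R, hR⟩ := hKc.isBounded.exists_norm_le
    have hyn : 0 < ‖y‖ := norm_pos_iff.mpr hy
    refine (Metric.isBounded_closedBall (x := (0 : ℝ)) (r := (R + ‖x‖) / ‖y‖)).subset ?_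
    rintro t ⟨ht, htK⟩
    rw [mem_closedBall_zero_iff, Real.norm_of_nonneg ht, le_div_iff₀ hyn]
    have h1 := hR _ htK
    have h2 : t * ‖y‖ = ‖t • y‖ := by rw [norm_smul, Real.norm_of_nonneg ht]
    rw [h2]
    have h3 : t • y = (x + t • y) - x := by abel
    rw [h3]
    exact (norm_sub_le _ _).trans (by linarith)
  have hcomp : IsCompact {t : ℝ | 0 ≤ t ∧ x + t • y ∈ K} :=
    Metric.isCompact_of_isClosed_isBounded hcl hbd
  have hne : {t : ℝ | 0 ≤ t ∧ x + t • y ∈ K}.Nonempty :=
    ⟨0, le_rfl, by simpa using interior_subset hx⟩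
  obtain ⟨t, ⟨ht0, htK⟩, htmax⟩ := hcomp.exists_isGreatest hne
  refine ⟨t, htK, ?_⟩
  have hnot : x + t • y ∉ interior K := by
    intro hint
    have hc : Continuous (fun s : ℝ => x + s • y) := by fun_prop
    have h1 : (fun s : ℝ => x + s • y) ⁻¹' interior K ∈ nhds t :=
      (isOpen_interior.preimage hc).mem_nhds hint
    obtain ⟨δ, hδ, hball⟩ := Metric.mem_nhds_iff.mp h1
    have h2 : t + δ / 2 ∈ {t : ℝ | 0 ≤ t ∧ x + t • y ∈ K} := by
      refine ⟨by linarith, interior_subset (hball ?_)⟩
      rw [Metric.mem_ball, Real.dist_eq, add_sub_cancel_left, abs_of_pos (by linarith)]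
      linarith
    have h3 := htmax h2
    linarith
  obtain ⟨f, hf⟩ := geometric_hahn_banach_open_point hKconv.interior isOpen_interior hnot
  refine ⟨f, ?_, ?_⟩
  · intro z hz
    have h1 : z ∈ closure (interior K) := by
      rw [hKconv.closure_interior_eq_closure_of_nonempty_interior ⟨x, hx⟩]
      exact subset_closure hz
    have h2 : closure (interior K) ⊆ {z | f z ≤ f (x + t • y)} :=
      closure_minimal (fun a ha => (hf a ha).le) (isClosed_le f.continuous continuous_const)
    exact h2 h1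
  · have h1 := hf x hx
    rw [map_add, map_smul, smul_eq_mul] at h1
    by_contra hcon
    push Not at hcon
    nlinarith

/-- two functionals vanishing on a common hyperplane are proportional -/
lemma proportional {E : Type*} [AddCommGroup E] [Module ℝ E] (W S : Submodule ℝ E)
    [FiniteDimensional ℝ W] (k : ℕ)
    (hW : finrank ℝ W = k + 1) (hSW : S ≤ W) (hS : finrank ℝ S = k) (a l : E →ₗ[ℝ] ℝ)
    (ha : ∀ z ∈ S, a z = 0) (hl : ∀ z ∈ S, l z = 0) (y : E) (hy : y ∈ W) (hly : l y ≠ 0) :
    ∃ c : ℝ, ∀ w ∈ W, a w = c * l w := by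
  refine ⟨a y / l y, ?_⟩
  -- kernel of l on W is S
  have hker : ∀ w ∈ W, l w = 0 → w ∈ S := by
    -- S ⊔ span y = W
    have hySn : y ∉ S := fun h => hly (hl y h)
    have hle : S ⊔ Submodule.span ℝ {y} ≤ W := by
      rw [sup_le_iff, Submodule.span_singleton_le_iff_mem]
      exact ⟨hSW, hy⟩
    have hfd : FiniteDimensional ℝ S := Submodule.finiteDimensional_of_le hSW
    have hfd' : FiniteDimensional ℝ (S ⊔ Submodule.span ℝ {y} : Submodule ℝ E) :=
      Submodule.finiteDimensional_of_le hle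
    have hdim : finrank ℝ (S ⊔ Submodule.span ℝ {y} : Submodule ℝ E) = k + 1 := by
      have h1 := Submodule.finrank_lt_finrank_of_lt (s := S) (t := S ⊔ Submodule.span ℝ {y}) (by
        refine lt_of_le_of_ne le_sup_left ?_
        intro h
        apply hySn
        rw [h]
        exact Submodule.mem_sup_right (Submodule.mem_span_singleton_self y))
      have h2 := Submodule.finrank_mono hle
      omega
    have heq : S ⊔ Submodule.span ℝ {y} = W :=
      Submodule.eq_of_le_of_finrank_eq hle (by rw [hdim, hW])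
    intro w hw hlw
    rw [← heq] at hw
    obtain ⟨s, hs, z, hz, rfl⟩ := Submodule.mem_sup.mp hw
    obtain ⟨r, rfl⟩ := Submodule.mem_span_singleton.mp hz
    rw [map_add, hl s hs, zero_add, map_smul, smul_eq_mul] at hlw
    have hr : r = 0 := (mul_eq_zero.mp hlw).resolve_right hly
    rw [hr, zero_smul, add_zero]
    exact hs
  intro w hw
  have h1 : w - (l w / l y) • y ∈ S := by
    apply hker
    · exact W.sub_mem hw (W.smul_mem _ hy)
    · rw [map_sub, map_smul, smul_eq_mul]
      field_simp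
      ring
  have h2 := ha _ h1
  rw [map_sub, map_smul, smul_eq_mul, sub_eq_zero] at h2
  rw [h2]
  field_simp

variable {E : Type*} [NormedAddCommGroup E] [InnerProductSpace ℝ E] [FiniteDimensional ℝ E]

/-- a functional vanishing on differences vanishes on the direction space -/
lemma vanish_vectorSpan (G : Set E) (a : E →ₗ[ℝ] ℝ) (ha : ∀ z ∈ G, ∀ z' ∈ G, a z = a z') :
    ∀ w ∈ vectorSpan ℝ G, a w = 0 := by
  intro w hw
  have h1 : vectorSpan ℝ G ≤ LinearMap.ker a := by
    rw [vectorSpan_def, Submodule.span_le]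
    rintro _ ⟨z, hz, z', hz', rfl⟩
    rw [SetLike.mem_coe, LinearMap.mem_ker]
    simp only [vsub_eq_sub, map_sub]
    rw [ha z hz z' hz', sub_self]
  exact LinearMap.mem_ker.mp (h1 hw)

/-- Values of an affine function vanishing on the facet `G` of `F`. -/
lemma facet_values (F G : Set E) (k : ℕ) (hF : finrank ℝ (vectorSpan ℝ F) = k + 1)
    (hGF : G ⊆ F) (hG : finrank ℝ (vectorSpan ℝ G) = k) (g : E) (hg : g ∈ G)
    (a : E →ₗ[ℝ] ℝ) (a0 : ℝ) (ha : ∀ x ∈ G, a x + a0 = 0)
    (l : E →ₗ[ℝ] ℝ) (hlG : ∀ x ∈ G, l x = l g) (y : E) (hy : y ∈ vectorSpan ℝ F) (hly : l y ≠ 0) :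
    ∃ c : ℝ, (∀ x ∈ F, a x + a0 = c * (l x - l g)) ∧ ∀ w ∈ vectorSpan ℝ F, a w = c * l w := by
  obtain ⟨c, hc⟩ := proportional (vectorSpan ℝ F) (vectorSpan ℝ G) k hF (vectorSpan_mono ℝ hGF) hG a l
    (vanish_vectorSpan G a (fun z hz z' hz' => by linarith [ha z hz, ha z' hz']))
    (vanish_vectorSpan G l (fun z hz z' hz' => by rw [hlG z hz, hlG z' hz'])) y hy hly
  refine ⟨c, ?_, hc⟩
  intro x hx
  have h1 := hc (x - g) (vsub_mem_vectorSpan ℝ hx (hGF hg))
  rw [map_sub, map_sub] at h1
  have h2 := ha g hg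
  linarith

variable [MeasurableSpace E] [BorelSpace E]

open Classical in
/-- The facet inequality for a face of a polytope. -/
theorem face_ineq (S : Finset E) (k : ℕ) (F : Set E) (hFne : F.Nonempty)
    (hFexp : IsExposed ℝ (convexHull ℝ (S : Set E)) F) (hFdim : finrank ℝ (vectorSpan ℝ F) = k + 1)
    {L : Type*} [Fintype L] (Gs : L → Set E) (hGinj : Function.Injective Gs)
    (hGall : ∀ G : Set E, (G.Nonempty ∧ IsExposed ℝ (convexHull ℝ (S : Set E)) G ∧
      finrank ℝ (vectorSpan ℝ G) = k) ↔ G ∈ Set.range Gs)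
    (u : L → (E →ₗ[ℝ] ℝ) × ℝ)
    (hu0 : ∀ g, Gs g ⊆ F → ∀ x ∈ Gs g, (u g).1 x + (u g).2 = 0)
    (hu1 : ∀ g, Gs g ⊆ F → ∃ x ∈ F, (u g).1 x + (u g).2 ≠ 0) :
    (((μHE[k + 1] : Measure E) F).toReal) ^ (((k + 1 : ℕ) : ℝ) - ((k + 1 : ℕ) : ℝ)⁻¹) /
        ((k + 1 : ℕ) : ℝ) ^ (k + 1 + 1) ≤
      ∑ τ ∈ Finset.univ.filter (fun τ : Fin (k + 1 + 1) → L => LinearIndependent ℝ (fun i => u (τ i))),
        ∏ i, (if Gs (τ i) ⊆ F then ((μHE[k] : Measure E) (Gs (τ i))).toReal else 0) := by
  classical
  have hPc : IsCompact (convexHull ℝ (S : Set E)) := S.finite_toSet.isCompact_convexHull ℝ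
  have hFc : IsCompact F := hFexp.isCompact hPc
  have hFconv : Convex ℝ F := hFexp.convex (convex_convexHull ℝ _)
  obtain ⟨x0, hx0⟩ := hFne
  set W := vectorSpan ℝ F with hW
  let f : W → E := fun w => (w : E) + x0
  have hfdef : ∀ w : W, f w = (w : E) + x0 := fun w => rfl
  have hf : Isometry f := by
    apply Isometry.of_dist_eq
    intro a b
    simp [f, Subtype.dist_eq]
  have hfcl : Topology.IsClosedEmbedding f := hf.isClosedEmbedding
  set K : Set W := f ⁻¹' F with hK
  have hFK : ∀ z ∈ F, ∃ w ∈ K, f w = z := by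
    intro z hz
    refine ⟨⟨z - x0, vsub_mem_vectorSpan ℝ hz hx0⟩, ?_, ?_⟩
    · rw [hK, Set.mem_preimage]
      simpa [f] using hz
    · simp [f]
  have hKc : IsCompact K := hfcl.isCompact_preimage hFc
  have hKconv : Convex ℝ K := by
    intro a ha b hb p q hp hq hpq
    rw [hK, Set.mem_preimage] at ha hb ⊢
    have : f (p • a + q • b) = p • f a + q • f b := by
      simp only [f, Submodule.coe_add, Submodule.coe_smul, smul_add]
      have h1 : x0 = p • x0 + q • x0 := by rw [← add_smul, hpq, one_smul]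
      nth_rewrite 1 [h1]
      abel
    rw [this]
    exact hFconv ha hb hp hq hpq
  have hKne : K.Nonempty := ⟨0, by rw [hK, Set.mem_preimage]; simpa [f] using hx0⟩
  have hKint : (interior K).Nonempty := by
    rw [hKconv.interior_nonempty_iff_affineSpan_eq_top,
      AffineSubspace.affineSpan_eq_top_iff_vectorSpan_eq_top_of_nonempty ℝ W W hKne]
    rw [eq_top_iff]
    have h1 : W ≤ (vectorSpan ℝ K).map W.subtype := by
      conv_lhs => rw [hW, vectorSpan_def]
      rw [Submodule.span_le]
      rintro _ ⟨z, hz, z', hz', rfl⟩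
      obtain ⟨w, hw, rfl⟩ := hFK z hz
      obtain ⟨w', hw', rfl⟩ := hFK z' hz'
      refine ⟨w - w', vsub_mem_vectorSpan ℝ hw hw', ?_⟩
      simp [f]
    intro w _
    obtain ⟨w', hw', hww'⟩ := h1 w.2
    have : w' = w := Subtype.ext hww'
    rw [← this]; exact hw'
  obtain ⟨z0, hz0⟩ := hKint
  have hz0K : z0 ∈ K := interior_subset hz0
  have hz0F : f z0 ∈ F := hz0K
  have hWfin : finrank ℝ W = k + 1 := hFdim
  have hvolK : (volume : Measure W) K = (μHE[k + 1] : Measure E) F := by
    have h1 : F = f '' K := by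
      ext z
      constructor
      · intro hz
        obtain ⟨w, hw, rfl⟩ := hFK z hz
        exact ⟨w, hw, rfl⟩
      · rintro ⟨w, hw, rfl⟩; exact hw
    rw [h1, hf.euclideanHausdorffMeasure_image, ← hWfin,
      InnerProductSpace.euclideanHausdorffMeasure_eq_volume]
  -- positivity in the interior
  have hposint : ∀ (l : E →ₗ[ℝ] ℝ) (M : ℝ), (∀ z ∈ F, l z ≤ M) → (∃ z ∈ F, l z < M) →
      l (f z0) < M := by
    intro l M hle ⟨z, hz, hlt⟩
    obtain ⟨w, hw, rfl⟩ := hFK z hz
    have hc : Continuous (fun s : ℝ => z0 + s • (z0 - w)) := by fun_prop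
    have h1 : (fun s : ℝ => z0 + s • (z0 - w)) ⁻¹' interior K ∈ nhds 0 := by
      apply (isOpen_interior.preimage hc).mem_nhds
      simpa using hz0
    obtain ⟨δ, hδ, hball⟩ := Metric.mem_nhds_iff.mp h1
    have h2 : z0 + (δ / 2) • (z0 - w) ∈ K := by
      apply interior_subset (hball _)
      rw [Metric.mem_ball, Real.dist_eq, sub_zero, abs_of_pos (by linarith)]
      linarith
    have h3 := hle _ h2
    have h4 : f (z0 + (δ / 2) • (z0 - w)) = f z0 + (δ / 2) • (f z0 - f w) := by
      simp only [f, Submodule.coe_add, Submodule.coe_smul, Submodule.coe_sub]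
      have : (z0 : E) + x0 - ((w : E) + x0) = (z0 : E) - w := by abel
      rw [this]
      abel
    rw [h4, map_add, map_smul, map_sub, smul_eq_mul] at h3
    have h5 := hle _ hz0F
    nlinarith
  -- the linear maps
  let lin : ((E →ₗ[ℝ] ℝ) × ℝ) →ₗ[ℝ] Module.Dual ℝ W :=
    (Module.Dual.transpose (R := ℝ) W.subtype) ∘ₗ (LinearMap.fst ℝ (E →ₗ[ℝ] ℝ) ℝ)
  have hlin : ∀ a (w : W), lin a w = a.1 w := fun a w => rfl
  let c0 : ((E →ₗ[ℝ] ℝ) × ℝ) →ₗ[ℝ] ℝ :=
    (Module.Dual.eval ℝ E x0) ∘ₗ (LinearMap.fst ℝ (E →ₗ[ℝ] ℝ) ℝ) + LinearMap.snd ℝ (E →ₗ[ℝ] ℝ) ℝ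
  have hc0 : ∀ a, c0 a = a.1 x0 + a.2 := fun a => rfl
  have hval : ∀ a (w : W), c0 a + lin a w = a.1 (f w) + a.2 := by
    intro a w
    rw [hlin, hc0, hfdef, map_add]; ring
  set ε : L → ℝ := fun g => if 0 < c0 (u g) + lin (u g) z0 then 1 else -1 with hε
  set w : L → ℝ := fun g => if Gs g ⊆ F then ((μHE[k] : Measure E) (Gs g)).toReal else 0 with hwdef
  have hw : ∀ g, 0 ≤ w g := by
    intro g
    simp only [hwdef]
    split_ifs
    · exact ENNReal.toReal_nonneg
    · exact le_rfl
  -- facets: functional data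
  have hGprop : ∀ g, (Gs g).Nonempty ∧ IsExposed ℝ (convexHull ℝ (S : Set E)) (Gs g) ∧
      finrank ℝ (vectorSpan ℝ (Gs g)) = k := fun g => (hGall (Gs g)).mpr ⟨g, rfl⟩
  have hne0 : ∀ g, Gs g ⊆ F → c0 (u g) + lin (u g) z0 ≠ 0 := by
    intro g hg
    obtain ⟨⟨p, hp⟩, hexp, hdim⟩ := hGprop g
    obtain ⟨l, hl⟩ := hexp ⟨p, hp⟩
    have hlmax : ∀ x ∈ F, l x ≤ l p := by
      intro x hx
      have h1 := hp
      rw [hl] at h1
      exact h1.2 x (hFexp.subset hx)
    have hlG : ∀ x ∈ Gs g, l x = l p := by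
      intro x hx
      have h1 := hp
      rw [hl] at h1 hx
      exact le_antisymm (h1.2 x hx.1) (hx.2 p h1.1)
    -- F is not contained in G
    obtain ⟨z, hz, hzG⟩ : ∃ z ∈ F, z ∉ Gs g := by
      by_contra hcon
      push Not at hcon
      have h2 := Submodule.finrank_mono (vectorSpan_mono ℝ (show F ⊆ Gs g from hcon))
      rw [hdim] at h2
      have : finrank ℝ (vectorSpan ℝ F) = k + 1 := hFdim
      omega
    have hlt : l z < l p := by
      refine lt_of_le_of_ne (hlmax z hz) ?_
      intro h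
      apply hzG
      rw [hl]
      refine ⟨hFexp.subset hz, fun y hy => ?_⟩
      rw [h]
      have h1 := hp
      rw [hl] at h1
      exact h1.2 y hy
    have hzp : z - p ∈ vectorSpan ℝ F := vsub_mem_vectorSpan ℝ hz (hg hp)
    obtain ⟨c, hc1, -⟩ := facet_values F (Gs g) k hFdim hg hdim p hp (u g).1 (u g).2 (hu0 g hg)
      l.toLinearMap hlG (z - p) hzp (by
        have : l.toLinearMap (z - p) = l z - l p := by simp
        rw [this]; intro h; linarith)
    have hcne : c ≠ 0 := by
      intro h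
      obtain ⟨x, hx, hxne⟩ := hu1 g hg
      apply hxne
      rw [hc1 x hx, h, zero_mul]
    rw [hval, hc1 _ hz0F]
    have h3 := hposint l.toLinearMap (l p) hlmax ⟨z, hz, hlt⟩
    apply mul_ne_zero hcne
    have : l.toLinearMap (f z0) - l.toLinearMap p < 0 := by
      have h4 : l.toLinearMap p = l p := rfl
      rw [h4]; linarith
    exact this.ne
  have hpos : ∀ g, Gs g ⊆ F → 0 < ε g * (c0 (u g) + lin (u g) z0) := by
    intro g hg
    have h1 := hne0 g hg
    simp only [hε]
    split_ifs with h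
    · rw [one_mul]; exact h
    · push Not at h
      have : c0 (u g) + lin (u g) z0 < 0 := lt_of_le_of_ne h h1
      linarith
  have hshadow : ∀ (y : W) (Lc : ℝ), y ≠ 0 → 0 ≤ Lc →
      (∀ x ∈ K, ∀ t : ℝ, 0 ≤ t → x + t • y ∈ K → t * ‖y‖ ≤ Lc) →
      ((volume : Measure W) K).toReal ≤
        Lc * ∑ g ∈ Finset.univ.filter (fun g => Gs g ⊆ F ∧ ε g * lin (u g) y < 0), w g := by
    intro y Lc hy hLc hchord
    -- low-dimensional faces
    let N := {G : Set E // G ⊆ F ∧ IsExposed ℝ (convexHull ℝ (S : Set E)) G ∧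
      finrank ℝ (vectorSpan ℝ G) < k}
    have hNfin : Finite N := by
      have h1 := Faces.faces_finite S
      have : {G : Set E | G ⊆ F ∧ IsExposed ℝ (convexHull ℝ (S : Set E)) G ∧
        finrank ℝ (vectorSpan ℝ G) < k}.Finite := h1.subset (fun G hG => hG.2.1)
      exact this
    have hNft : Fintype N := Fintype.ofFinite N
    let H : L ⊕ N → Set W := fun i => match i with
      | Sum.inl g => if Gs g ⊆ F ∧ ε g * lin (u g) y < 0 then f ⁻¹' (Gs g) else ∅
      | Sum.inr G => f ⁻¹' G.1
    have hH : ∀ x ∈ interior K, ∃ t : ℝ, ∃ i, x + t • y ∈ H i := by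
      intro x hx
      obtain ⟨t, htK, φ, hφmax, hφy⟩ := exit_point K hKc hKconv x hx y hy
      refine ⟨t, ?_⟩
      set p : E := f (x + t • y) with hp
      -- extend φ to E
      let l : StrongDual ℝ E := φ.comp (W.orthogonalProjectionOnto)
      have hlW : ∀ w' : W, l (w' : E) = φ w' := by
        intro w'
        simp [l]
      have hlf : ∀ w' : W, l (f w') = φ w' + l x0 := by
        intro w'
        rw [hfdef, map_add, hlW]
      set G : Set E := {z | z ∈ F ∧ ∀ z' ∈ F, l z' ≤ l z} with hG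
      have hGexpF : IsExposed ℝ F G := fun _ => ⟨l, rfl⟩
      have hGexp := Faces.face_trans S F G hFexp hGexpF
      have hpF : p ∈ F := htK
      have hpG : p ∈ G := by
        refine ⟨hpF, ?_⟩
        intro z' hz'
        obtain ⟨w', hw', rfl⟩ := hFK z' hz'
        rw [hlf, hlf]
        linarith [hφmax w' hw']
      have hGF : G ⊆ F := fun z hz => hz.1
      have hlG : ∀ z ∈ G, l z = l p := by
        intro z hz
        exact le_antisymm (hpG.2 z hz.1) (hz.2 p hpF)
      have hGdim : finrank ℝ (vectorSpan ℝ G) ≤ k := by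
        by_contra hcon
        push Not at hcon
        have h1 : vectorSpan ℝ G ≤ vectorSpan ℝ F := vectorSpan_mono ℝ hGF
        have h2 : vectorSpan ℝ G = vectorSpan ℝ F := by
          apply Submodule.eq_of_le_of_finrank_le h1
          have : finrank ℝ (vectorSpan ℝ F) = k + 1 := hFdim
          omega
        have h3 := vanish_vectorSpan G l.toLinearMap (fun z hz z' hz' => by
          have e1 := hlG z hz
          have e2 := hlG z' hz'
          exact e1.trans e2.symm) y (by rw [h2]; exact y.2)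
        have h4 : l (y : E) = φ y := hlW y
        have h5 : l.toLinearMap (y : E) = l (y : E) := rfl
        rw [h5, h4] at h3
        linarith
      rcases lt_or_eq_of_le hGdim with hlt | heq
      · exact ⟨Sum.inr ⟨G, hGF, hGexp, hlt⟩, hpG⟩
      · obtain ⟨g, hg⟩ := (hGall G).mp ⟨⟨p, hpG⟩, hGexp, heq⟩
        refine ⟨Sum.inl g, ?_⟩
        have hgF : Gs g ⊆ F := by rw [hg]; exact hGF
        have hly : l.toLinearMap (y : E) = φ y := hlW y
        obtain ⟨c, hc1, hc2⟩ := facet_values F (Gs g) k hFdim hgF (by rw [hg]; exact heq) p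
          (by rw [hg]; exact hpG) (u g).1 (u g).2 (hu0 g hgF) l.toLinearMap
          (by intro x hx; rw [hg] at hx; exact hlG x hx) y y.2 (by rw [hly]; exact hφy.ne')
        have hlz0 : l.toLinearMap (f z0) < l.toLinearMap p := by
          apply hposint l.toLinearMap (l.toLinearMap p) (fun z hz => hpG.2 z hz)
          have hxK : x ∈ K := interior_subset hx
          refine ⟨f x, hxK, ?_⟩
          show l (f x) < l p
          rw [hp, hlf, hlf, map_add, map_smul, smul_eq_mul]
          -- t > 0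
          have hxt : 0 < t := by
            by_contra hcon
            push Not at hcon
            -- x interior, push forward
            have hcont : Continuous (fun s : ℝ => x + s • y) := by fun_prop
            have h1 : (fun s : ℝ => x + s • y) ⁻¹' interior K ∈ nhds 0 := by
              apply (isOpen_interior.preimage hcont).mem_nhds
              simpa using hx
            obtain ⟨δ, hδ, hball⟩ := Metric.mem_nhds_iff.mp h1
            have h2 : x + (δ / 2) • y ∈ K := by
              apply interior_subset (hball _)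
              rw [Metric.mem_ball, Real.dist_eq, sub_zero, abs_of_pos (by linarith)]
              linarith
            have h3 := hφmax _ h2
            rw [map_add, map_add, map_smul, map_smul, smul_eq_mul, smul_eq_mul] at h3
            have h4 : (δ / 2) * φ y ≤ t * φ y := by linarith
            have h5 : 0 < (δ / 2) * φ y := by positivity
            have h6 : t * φ y ≤ 0 := mul_nonpos_of_nonpos_of_nonneg hcon hφy.le
            linarith
          have : 0 < t * φ y := mul_pos hxt hφy
          linarith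
        have hv0 : c0 (u g) + lin (u g) z0 = c * (l.toLinearMap (f z0) - l.toLinearMap p) := by
          rw [hval, hc1 _ hz0F]
        have hpg := hpos g hgF
        rw [hv0] at hpg
        have hneg : ε g * lin (u g) y < 0 := by
          rw [hlin, hc2 y y.2, hly]
          have h7 : 0 < -(ε g * c) * (l.toLinearMap p - l.toLinearMap (f z0)) := by linarith
          have h8 : 0 < -(ε g * c) := by
            by_contra hcon
            push Not at hcon
            nlinarith
          nlinarith
        show x + t • y ∈ (if Gs g ⊆ F ∧ ε g * lin (u g) y < 0 then f ⁻¹' (Gs g) else ∅)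
        rw [if_pos ⟨hgF, hneg⟩, Set.mem_preimage, hg]
        exact hpG
    have hsh := Shadow.shadow k hWfin K hKconv y hy Lc hchord H hH
    have hsum : ∑ i, (μHE[k] : Measure W) (H i) ≤
        ∑ g ∈ Finset.univ.filter (fun g => Gs g ⊆ F ∧ ε g * lin (u g) y < 0), (μHE[k] : Measure E) (Gs g) := by
      rw [Fintype.sum_sum_type]
      have hN0 : ∑ G : N, (μHE[k] : Measure W) (H (Sum.inr G)) = 0 := by
        apply Finset.sum_eq_zero
        intro G _
        have h1 : (μHE[k] : Measure W) (f ⁻¹' G.1) ≤ (μHE[k] : Measure E) G.1 := by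
          rw [hf.euclideanHausdorffMeasure_preimage]
          exact measure_mono Set.inter_subset_left
        have h2 : (μHE[k] : Measure E) G.1 = 0 :=
          Faces.muHE_eq_zero G.1 (hFc.isBounded.subset G.2.1) _ k rfl G.2.2.2
        exact le_antisymm (h1.trans h2.le) bot_le
      rw [hN0, add_zero, Finset.sum_filter]
      apply Finset.sum_le_sum
      intro g _
      show (μHE[k] : Measure W) (if Gs g ⊆ F ∧ ε g * lin (u g) y < 0 then f ⁻¹' (Gs g) else ∅) ≤ _
      by_cases h : Gs g ⊆ F ∧ ε g * lin (u g) y < 0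
      · rw [if_pos h, if_pos h, hf.euclideanHausdorffMeasure_preimage]
        exact measure_mono Set.inter_subset_left
      · rw [if_neg h, if_neg h, measure_empty]
    have hfinG : ∀ g, Gs g ⊆ F → (μHE[k] : Measure E) (Gs g) ≠ ⊤ := by
      intro g hg
      exact (Faces.muHE_lt_top (Gs g) (hFc.isBounded.subset hg) k (hGprop g).2.2).ne
    have hle : (volume : Measure W) K ≤ ENNReal.ofReal Lc *
        ∑ g ∈ Finset.univ.filter (fun g => Gs g ⊆ F ∧ ε g * lin (u g) y < 0), (μHE[k] : Measure E) (Gs g) :=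
      hsh.trans (by gcongr)
    have hne_top : ENNReal.ofReal Lc *
        ∑ g ∈ Finset.univ.filter (fun g => Gs g ⊆ F ∧ ε g * lin (u g) y < 0), (μHE[k] : Measure E) (Gs g)
          ≠ ⊤ := by
      apply ENNReal.mul_ne_top ENNReal.ofReal_ne_top
      rw [ENNReal.sum_ne_top]
      intro g hg
      exact hfinG g (Finset.mem_filter.mp hg).2.1
    have hto := ENNReal.toReal_mono hne_top hle
    rw [ENNReal.toReal_mul, ENNReal.toReal_ofReal hLc, ENNReal.toReal_sum (fun g hg =>
      hfinG g (Finset.mem_filter.mp hg).2.1)] at hto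
    refine hto.trans (le_of_eq ?_)
    congr 1
    apply Finset.sum_congr rfl
    intro g hg
    simp only [hwdef]
    rw [if_pos (Finset.mem_filter.mp hg).2.1]
  have hmain := GI.facet_ineq (k + 1) (Nat.succ_pos k) hWfin K hKc hKconv z0 hz0 lin c0 u w hw
    (fun g => Gs g ⊆ F) ε hpos hshadow
  rw [hvolK] at hmain
  exact hmain

end

end Pool.Agent.Helper733.FaceIneq
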