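import Pool.Agent.Helper733.Shadow

/-!
Faces of a polytope.
-/

set_option autoImplicit false

namespace Pool.Agent.Helper733.Faces

open scoped BigOperators RealInnerProductSpace MeasureTheory
open MeasureTheory Module Measure

noncomputable section

variable {E : Type*} [NormedAddCommGroup E] [InnerProductSpace ℝ E] [FiniteDimensional ℝ E]

/-- faces are hulls of their extreme points, which are vertices -/
lemma face_eq_hull (S : Finset E) (F : Set E) (hF : IsExposed ℝ (convexHull ℝ (S : Set E)) F) :
    F = convexHull ℝ (F.extremePoints ℝ) ∧ F.extremePoints ℝ ⊆ S := by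
  have hPc : IsCompact (convexHull ℝ (S : Set E)) := S.finite_toSet.isCompact_convexHull ℝ
  have hFc : IsCompact F := hF.isCompact hPc
  have hFconv : Convex ℝ F := hF.convex (convex_convexHull ℝ _)
  have hsub : F.extremePoints ℝ ⊆ S :=
    (hF.isExtreme.extremePoints_subset_extremePoints).trans extremePoints_convexHull_subset
  refine ⟨?_, hsub⟩
  have h1 := closure_convexHull_extremePoints hFc hFconv
  have hfin : (F.extremePoints ℝ).Finite := S.finite_toSet.subset hsub
  have h2 : IsClosed (convexHull ℝ (F.extremePoints ℝ)) := (hfin.isCompact_convexHull ℝ).isClosed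
  rw [h2.closure_eq] at h1
  exact h1.symm

/-- finitely many faces -/
lemma faces_finite (S : Finset E) : {F : Set E | IsExposed ℝ (convexHull ℝ (S : Set E)) F}.Finite := by
  have h1 : {F : Set E | IsExposed ℝ (convexHull ℝ (S : Set E)) F} ⊆
      (fun T : Set E => convexHull ℝ T) '' (Set.powerset (S : Set E)) := by
    intro F hF
    obtain ⟨h1, h2⟩ := face_eq_hull S F hF
    exact ⟨F.extremePoints ℝ, h2, h1.symm⟩
  exact (S.finite_toSet.finite_subsets.image _).subset h1

/-- an exposed subset of an exposed subset of a polytope is exposed -/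
lemma face_trans (S : Finset E) (F G : Set E) (hF : IsExposed ℝ (convexHull ℝ (S : Set E)) F)
    (hG : IsExposed ℝ F G) : IsExposed ℝ (convexHull ℝ (S : Set E)) G := by
  classical
  intro hGne
  obtain ⟨l', hl'⟩ := hG hGne
  have hGF : G ⊆ F := hG.subset
  obtain ⟨g, hg⟩ := hGne
  have hFne : F.Nonempty := ⟨g, hGF hg⟩
  obtain ⟨l, hl⟩ := hF hFne
  have hFP : F ⊆ convexHull ℝ (S : Set E) := hF.subset
  set M := l g with hM
  set M' := l' g with hM'
  have hlF : ∀ x ∈ F, l x = M := by
    intro x hx
    have hg' := hGF hg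
    rw [hl] at hx hg'
    exact le_antisymm (hg'.2 x hx.1) (hx.2 g hg'.1)
  have hlP : ∀ x ∈ convexHull ℝ (S : Set E), l x ≤ M := by
    intro x hx
    have hg' := hGF hg
    rw [hl] at hg'
    exact hg'.2 x hx
  have hl'F : ∀ x ∈ F, l' x ≤ M' := by
    intro x hx
    have hg' := hg
    rw [hl'] at hg'
    exact hg'.2 x hx
  have hmemF : ∀ x ∈ convexHull ℝ (S : Set E), l x = M → x ∈ F := by
    intro x hx hxM
    rw [hl]
    exact ⟨hx, fun y hy => (hlP y hy).trans hxM.ge⟩
  have hmemG : ∀ x ∈ F, l' x = M' → x ∈ G := by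
    intro x hx hxM
    rw [hl']
    exact ⟨hx, fun y hy => (hl'F y hy).trans hxM.ge⟩
  -- choose ε
  obtain ⟨ε, hε, hεS⟩ : ∃ ε : ℝ, 0 < ε ∧ ∀ s ∈ S, s ∉ F → l s + ε * l' s < M + ε * M' := by
    -- for each s a threshold
    have hth : ∀ s : E, ∃ δ : ℝ, 0 < δ ∧ (s ∈ S → s ∉ F → ∀ ε, 0 < ε → ε < δ →
        l s + ε * l' s < M + ε * M') := by
      intro s
      by_cases hs : s ∈ S ∧ s ∉ F
      · have hlt : l s < M := by
          refine lt_of_le_of_ne (hlP s (subset_convexHull ℝ _ hs.1)) ?_
          intro h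
          exact hs.2 (hmemF s (subset_convexHull ℝ _ hs.1) h)
        refine ⟨(M - l s) / (|l' s - M'| + 1), by
          have : 0 < M - l s := by linarith
          positivity, ?_⟩
        intro _ _ ε hε hεδ
        rw [lt_div_iff₀ (by positivity)] at hεδ
        have h1 : ε * (l' s - M') ≤ ε * |l' s - M'| :=
          mul_le_mul_of_nonneg_left (le_abs_self _) hε.le
        nlinarith
      · exact ⟨1, one_pos, fun h1 h2 => absurd ⟨h1, h2⟩ hs⟩
    choose δ hδ hδ' using hth
    by_cases hS : S.Nonempty
    · obtain ⟨s0, hs0, hmin⟩ := S.exists_min_image δ hS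
      refine ⟨δ s0 / 2, half_pos (hδ s0), ?_⟩
      intro s hs hsF
      apply hδ' s hs hsF _ (half_pos (hδ s0))
      have := hmin s hs
      have := hδ s0
      linarith
    · refine ⟨1, one_pos, ?_⟩
      intro s hs
      exact absurd ⟨s, hs⟩ hS
  set l'' : StrongDual ℝ E := l + ε • l' with hl''
  have hl''v : ∀ x, l'' x = l x + ε * l' x := by intro x; simp [hl'']
  have hle : ∀ s ∈ S, l'' s ≤ M + ε * M' := by
    intro s hs
    rw [hl''v]
    by_cases hsF : s ∈ F
    · rw [hlF s hsF]
      have := hl'F s hsF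
      nlinarith
    · exact (hεS s hs hsF).le
  have hleP : ∀ x ∈ convexHull ℝ (S : Set E), l'' x ≤ M + ε * M' := by
    intro x hx
    have hconv : Convex ℝ {x : E | l'' x ≤ M + ε * M'} :=
      convex_halfSpace_le l''.toLinearMap.isLinear _
    exact (convexHull_min (fun s hs => hle s hs) hconv) hx
  refine ⟨l'', ?_⟩
  set G'' : Set E := {x | x ∈ convexHull ℝ (S : Set E) ∧ ∀ y ∈ convexHull ℝ (S : Set E), l'' y ≤ l'' x}
    with hG''
  show G = G''
  apply Set.Subset.antisymm
  · intro x hx
    have hxF := hGF hx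
    have hxl' : l' x = M' := by
      have hg' := hg
      rw [hl'] at hx hg'
      exact le_antisymm (hg'.2 x hx.1) (hx.2 g hg'.1)
    refine ⟨hFP hxF, fun y hy => ?_⟩
    have h1 : l'' x = M + ε * M' := by rw [hl''v, hlF x hxF, hxl']
    rw [h1]
    exact hleP y hy
  · have hexp : IsExposed ℝ (convexHull ℝ (S : Set E)) G'' := fun _ => ⟨l'', rfl⟩
    obtain ⟨h1, h2⟩ := face_eq_hull S G'' hexp
    have hGconv : Convex ℝ G := (hG.convex (hF.convex (convex_convexHull ℝ _)))
    rw [h1]
    apply convexHull_min _ hGconv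
    intro s hs
    have hsS : s ∈ S := h2 hs
    have hsG'' : s ∈ G'' := extremePoints_subset hs
    have hsmax : M + ε * M' ≤ l'' s := by
      have h3 := hsG''.2 g (hFP (hGF hg))
      rw [hl''v g] at h3
      exact h3
    have hsF : s ∈ F := by
      by_contra hsF
      have := hεS s hsS hsF
      rw [hl''v] at hsmax
      linarith
    apply hmemG s hsF
    rw [hl''v, hlF s hsF] at hsmax
    have h4 := hl'F s hsF
    nlinarith

variable [MeasurableSpace E] [BorelSpace E]

/-- A bounded set has finite `μHE` measure in its own dimension. -/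
lemma muHE_lt_top (G : Set E) (hG : Bornology.IsBounded G) (r : ℕ)
    (hr : finrank ℝ (vectorSpan ℝ G) = r) : (μHE[r] : Measure E) G < ⊤ := by
  rcases G.eq_empty_or_nonempty with h | ⟨x0, hx0⟩
  · rw [h, measure_empty]; exact ENNReal.zero_lt_top
  set W := vectorSpan ℝ G with hW
  let f : W → E := fun w => (w : E) + x0
  have hf : Isometry f := by
    apply Isometry.of_dist_eq
    intro a b
    simp [f, Subtype.dist_eq]
  set K : Set W := f ⁻¹' G with hK
  have hGK : G = f '' K := by
    ext z
    constructor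
    · intro hz
      refine ⟨⟨z - x0, vsub_mem_vectorSpan ℝ hz hx0⟩, ?_, ?_⟩
      · rw [hK, Set.mem_preimage]
        simpa [f] using hz
      · simp [f]
    · rintro ⟨w, hw, rfl⟩
      exact hw
  have hKb : Bornology.IsBounded K := AntilipschitzWith.isBounded_preimage hf.antilipschitz hG
  rw [hGK, hf.euclideanHausdorffMeasure_image, ← hr,
    InnerProductSpace.euclideanHausdorffMeasure_eq_volume]
  exact hKb.measure_lt_top

/-- lower-dimensional bounded sets are null -/
lemma muHE_eq_zero (G : Set E) (hG : Bornology.IsBounded G) (r k : ℕ)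
    (hr : finrank ℝ (vectorSpan ℝ G) = r) (hk : r < k) : (μHE[k] : Measure E) G = 0 := by
  rcases euclideanHausdorffMeasure_zero_or_top hk G with h | h
  · exact h
  · exact absurd h (muHE_lt_top G hG r hr).ne

end

end Pool.Agent.Helper733.Faces
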