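import Mathlib

/-!
Greedy orthogonal chords of a convex body.
-/

set_option autoImplicit false

namespace Pool.Agent.Helper733.Geom

open scoped BigOperators RealInnerProductSpace Pointwise
open MeasureTheory Module

noncomputable section

variable {E : Type*} [NormedAddCommGroup E] [InnerProductSpace ℝ E] [FiniteDimensional ℝ E]

/-- greedy orthogonal chords -/
theorem exists_chords (K : Set E) (hK : IsCompact K) (hint : (interior K).Nonempty) (i : ℕ)
    (hi : i ≤ finrank ℝ E) :
    ∃ v : ℕ → E, ∀ a < i, (∃ x ∈ K, ∃ y ∈ K, x - y = v a) ∧ v a ≠ 0 ∧ (∀ b < a, ⟪v b, v a⟫ = 0) ∧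
      ∀ x ∈ K, ∀ y ∈ K, (∀ b < a, ⟪v b, x - y⟫ = 0) → ‖x - y‖ ≤ ‖v a‖ := by
  induction i with
  | zero => exact ⟨fun _ => 0, fun a ha => absurd ha (Nat.not_lt_zero a)⟩
  | succ i ih =>
    obtain ⟨v, hv⟩ := ih (by omega)
    -- compact set of admissible pairs
    set S : Set (E × E) := (K ×ˢ K) ∩ {p | ∀ b < i, ⟪v b, p.1 - p.2⟫ = 0} with hS
    have hScl : IsClosed {p : E × E | ∀ b < i, ⟪v b, p.1 - p.2⟫ = 0} := by
      simp only [Set.ofPred_forall]
      exact isClosed_iInter fun b => isClosed_iInter fun _ =>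
        isClosed_eq (by fun_prop) continuous_const
    have hSc : IsCompact S := (hK.prod hK).inter_right hScl
    obtain ⟨x0, hx0⟩ := hint
    have hx0K : x0 ∈ K := interior_subset hx0
    have hSne : S.Nonempty := ⟨(x0, x0), ⟨hx0K, hx0K⟩, fun b _ => by simp⟩
    obtain ⟨⟨x1, y1⟩, ⟨⟨hx1, hy1⟩, horth⟩, hmax⟩ := hSc.exists_isMaxOn hSne
      (f := fun p : E × E => ‖p.1 - p.2‖) (by fun_prop)
    -- nonzero
    have hne : x1 - y1 ≠ 0 := by
      -- an orthogonal nonzero vector
      set U : Submodule ℝ E := Submodule.span ℝ (v '' {b | b < i}) with hU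
      have hUd : finrank ℝ U < finrank ℝ E := by
        have h1 : finrank ℝ U ≤ i := by
          have hfin : (v '' {b | b < i}).Finite := (Set.finite_lt_nat i).image v
          have := hfin.fintype
          have h2 := finrank_span_le_card (R := ℝ) (v '' {b | b < i})
          refine h2.trans ?_
          rw [← Set.ncard_eq_toFinset_card']
          refine (Set.ncard_image_le (Set.finite_lt_nat i)).trans ?_
          have : {b | b < i} = (Finset.range i : Set ℕ) := by ext b; simp
          rw [this, Set.ncard_coe_finset, Finset.card_range]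
        omega
      have hUperp : Uᗮ ≠ ⊥ := by
        intro hbot
        have h3 := Submodule.finrank_add_finrank_orthogonal U
        rw [hbot, finrank_bot] at h3
        omega
      obtain ⟨z, hz, hz0⟩ := (Submodule.ne_bot_iff _).mp hUperp
      -- scale z
      obtain ⟨r, hr, hball⟩ := Metric.isOpen_iff.mp isOpen_interior x0 hx0
      have hzn : 0 < ‖z‖ := norm_pos_iff.mpr hz0
      set t : ℝ := r / (2 * ‖z‖) with ht
      have ht0 : 0 < t := by positivity
      have hmem : x0 + t • z ∈ K := by
        apply interior_subset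
        apply hball
        rw [Metric.mem_ball, dist_eq_norm, add_sub_cancel_left, norm_smul, Real.norm_of_nonneg ht0.le,
          ht]
        have : r / (2 * ‖z‖) * ‖z‖ = r / 2 := by field_simp
        rw [this]; linarith
      have hS' : (x0 + t • z, x0) ∈ S := by
        refine ⟨⟨hmem, hx0K⟩, ?_⟩
        intro b hb
        simp only [add_sub_cancel_left]
        rw [inner_smul_right]
        have : ⟪v b, z⟫ = 0 := by
          apply (Submodule.mem_orthogonal U z).mp hz
          exact Submodule.subset_span ⟨b, hb, rfl⟩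
        rw [this, mul_zero]
      have h6 : ‖x0 + t • z - x0‖ ≤ ‖x1 - y1‖ := hmax hS'
      rw [add_sub_cancel_left] at h6
      intro h5
      rw [h5, norm_zero, norm_smul, Real.norm_of_nonneg ht0.le] at h6
      have : 0 < t * ‖z‖ := by positivity
      linarith
    refine ⟨Function.update v i (x1 - y1), ?_⟩
    intro a ha
    have hupd : ∀ b, b < i → Function.update v i (x1 - y1) b = v b := fun b hb =>
      Function.update_of_ne (by omega) _ _
    rcases Nat.lt_succ_iff_lt_or_eq.mp ha with h | h
    · rw [hupd a h]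
      obtain ⟨h1, h2, h3, h4⟩ := hv a h
      refine ⟨h1, h2, ?_, ?_⟩
      · intro b hb
        rw [hupd b (by omega)]
        exact h3 b hb
      · intro x hx y hy hxy
        apply h4 x hx y hy
        intro b hb
        have := hxy b hb
        rwa [hupd b (by omega)] at this
    · subst h
      rw [Function.update_self]
      refine ⟨⟨x1, hx1, y1, hy1, rfl⟩, hne, ?_, ?_⟩
      · intro b hb
        rw [hupd b hb]
        exact horth b hb
      · intro x hx y hy hxy
        have hmem : (x, y) ∈ S := by
          refine ⟨⟨hx, hy⟩, ?_⟩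
          intro b hb
          have := hxy b hb
          rwa [hupd b hb] at this
        exact hmax hmem

variable [MeasurableSpace E] [BorelSpace E]

/-- volume lower bound from orthogonal chords -/
theorem vol_lower (K : Set E) (hK : Convex ℝ K) (m : ℕ) (hm : 0 < m) (hE : finrank ℝ E = m)
    (v : Fin m → E) (hv : ∀ i, ∃ x ∈ K, ∃ y ∈ K, x - y = v i) (hne : ∀ i, v i ≠ 0)
    (horth : ∀ i j, i ≠ j → ⟪v i, v j⟫ = 0) :
    ENNReal.ofReal ((∏ i, ‖v i‖) / (m : ℝ) ^ m) ≤ (volume : Measure E) K := by
  classical
  choose x hx y hy hxy using hv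
  have hmR : (0 : ℝ) < m := by exact_mod_cast hm
  -- orthonormal basis
  have hon : Orthonormal ℝ (fun i => (‖v i‖)⁻¹ • v i) := by
    constructor
    · intro i
      rw [norm_smul, norm_inv, norm_norm, inv_mul_cancel₀ (norm_ne_zero_iff.mpr (hne i))]
    · intro i j hij
      rw [inner_smul_left, inner_smul_right, horth i j hij]
      simp
  have hcard : Fintype.card (Fin m) = finrank ℝ E := by rw [Fintype.card_fin, hE]
  have : Nonempty (Fin m) := ⟨⟨0, hm⟩⟩
  let b0 : Basis (Fin m) ℝ E := basisOfLinearIndependentOfCardEqFinrank hon.linearIndependent hcard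
  have hb0 : ∀ i, b0 i = (‖v i‖)⁻¹ • v i := by
    intro i; simp [b0]
  have hon' : Orthonormal ℝ b0 := by
    have : (b0 : Fin m → E) = fun i => (‖v i‖)⁻¹ • v i := funext hb0
    rw [this]; exact hon
  let b : OrthonormalBasis (Fin m) ℝ E := b0.toOrthonormalBasis hon'
  have hbv : ∀ i, v i = ‖v i‖ • b i := by
    intro i
    have : b i = (‖v i‖)⁻¹ • v i := by simp [b, hb0]
    rw [this, smul_smul, mul_inv_cancel₀ (norm_ne_zero_iff.mpr (hne i)), one_smul]
  -- volume of the box
  have hvol : (volume : Measure E) (parallelepiped (fun i => (m : ℝ)⁻¹ • v i)) =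
      ENNReal.ofReal ((∏ i, ‖v i‖) / (m : ℝ) ^ m) := by
    rw [← b.addHaar_eq_volume, Measure.addHaar_parallelepiped]
    congr 1
    have h1 : (fun i => (m : ℝ)⁻¹ • v i) = fun i => ((m : ℝ)⁻¹ * ‖v i‖) • b.toBasis i := by
      funext i
      rw [OrthonormalBasis.coe_toBasis, mul_smul, ← hbv i]
    rw [h1, AlternatingMap.map_smul_univ]
    have h2 : b.toBasis.det (fun i => b.toBasis i) = 1 := b.toBasis.det_self
    rw [h2, smul_eq_mul, mul_one, Finset.prod_mul_distrib, Finset.prod_const, Finset.card_univ,
      Fintype.card_fin, abs_of_nonneg (by positivity), inv_pow]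
    ring
  rw [← hvol]
  -- translate into K
  set c : E := ∑ i, (m : ℝ)⁻¹ • y i with hc
  have hsub : (c +ᵥ parallelepiped (fun i => (m : ℝ)⁻¹ • v i)) ⊆ K := by
    intro z hz
    obtain ⟨z', hz', rfl⟩ := hz
    obtain ⟨t, ht, rfl⟩ := (mem_parallelepiped_iff _ _).mp hz'
    simp only [vadd_eq_add]
    rw [hc, ← Finset.sum_add_distrib]
    have h3 : ∀ i, (m : ℝ)⁻¹ • y i + t i • (m : ℝ)⁻¹ • v i = (m : ℝ)⁻¹ • (y i + t i • v i) := by
      intro i; rw [smul_add, smul_comm]
    rw [Finset.sum_congr rfl (fun i _ => h3 i)]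
    apply hK.sum_mem
    · intro i _; positivity
    · simp [hmR.ne']
    · intro i _
      have h4 : y i + t i • v i = (1 - t i) • y i + t i • x i := by
        rw [← hxy i, sub_smul, one_smul, smul_sub]; abel
      rw [h4]
      have ht1 := ht.1 i
      have ht2 := ht.2 i
      exact hK (hy i) (hx i) (by simpa using ht2) (by simpa using ht1) (by ring)
  calc (volume : Measure E) (parallelepiped (fun i => (m : ℝ)⁻¹ • v i))
      = (volume : Measure E) (c +ᵥ parallelepiped (fun i => (m : ℝ)⁻¹ • v i)) := by
        rw [measure_vadd]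
    _ ≤ _ := measure_mono hsub

end

end Pool.Agent.Helper733.Geom
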