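import Mathlib

/-!
A weighted joints theorem, part 1: the vanishing lemma and the discrete counting inequality.
-/

set_option autoImplicit false

namespace Pool.Agent.Helper733.Joints

open scoped BigOperators

noncomputable section

/-- bivariate polynomials, inner variable `T`, outer variable `E` -/
abbrev R2 := Polynomial (Polynomial ℝ)

/-- total degree at most `d` -/
def UD (d : ℕ) (h : R2) : Prop := ∀ s j, d < s + j → (h.coeff s).coeff j = 0

/-- order at least `v` at `(T, E) = (t, 0)` -/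
def LO (t : ℝ) (v : ℕ) (h : R2) : Prop := ∀ s, (Polynomial.X - Polynomial.C t) ^ (v - s) ∣ h.coeff s

lemma UD.mono {d d' : ℕ} {h : R2} (hd : d ≤ d') (hh : UD d h) : UD d' h :=
  fun s j hs => hh s j (lt_of_le_of_lt hd hs)

lemma UD.add {d : ℕ} {h k : R2} (hh : UD d h) (hk : UD d k) : UD d (h + k) := by
  intro s j hs
  rw [Polynomial.coeff_add, Polynomial.coeff_add, hh s j hs, hk s j hs, add_zero]

lemma UD.mul {d e : ℕ} {h k : R2} (hh : UD d h) (hk : UD e k) : UD (d + e) (h * k) := by
  intro s j hs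
  rw [Polynomial.coeff_mul, Polynomial.finsetSum_coeff]
  apply Finset.sum_eq_zero
  rintro ⟨a, b⟩ hab
  rw [Finset.HasAntidiagonal.mem_antidiagonal] at hab
  simp only at hab ⊢
  rw [Polynomial.coeff_mul]
  apply Finset.sum_eq_zero
  rintro ⟨c, f⟩ hcf
  rw [Finset.HasAntidiagonal.mem_antidiagonal] at hcf
  simp only at hcf ⊢
  by_cases h1 : d < a + c
  · rw [hh a c h1, zero_mul]
  · rw [hk b f (by omega), mul_zero]

lemma UD.one : UD 0 (1 : R2) := by
  intro s j hs
  rw [Polynomial.coeff_one]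
  split_ifs with h
  · rw [Polynomial.coeff_one, if_neg (by omega)]
  · simp

lemma UD.pow {d : ℕ} {h : R2} (hh : UD d h) (k : ℕ) : UD (k * d) (h ^ k) := by
  induction k with
  | zero => simpa using UD.one
  | succ k ih =>
    rw [pow_succ, Nat.succ_mul]
    exact ih.mul hh

lemma UD.zero (d : ℕ) : UD d (0 : R2) := by
  intro s j _; simp

lemma UD.sum {ι : Type*} (s : Finset ι) (d : ℕ) (f : ι → R2) (h : ∀ i ∈ s, UD d (f i)) :
    UD d (∑ i ∈ s, f i) := by
  classical
  induction s using Finset.induction_on with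
  | empty => simpa using UD.zero d
  | insert a s ha ih =>
    rw [Finset.sum_insert ha]
    exact (h a (Finset.mem_insert_self _ _)).add (ih fun i hi => h i (Finset.mem_insert_of_mem hi))

lemma UD.prod {ι : Type*} (s : Finset ι) (d : ι → ℕ) (f : ι → R2) (h : ∀ i ∈ s, UD (d i) (f i)) :
    UD (∑ i ∈ s, d i) (∏ i ∈ s, f i) := by
  classical
  induction s using Finset.induction_on with
  | empty => simpa using UD.one
  | insert a s ha ih =>
    rw [Finset.prod_insert ha, Finset.sum_insert ha]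
    exact (h a (Finset.mem_insert_self _ _)).mul (ih fun i hi => h i (Finset.mem_insert_of_mem hi))

lemma UD.const (r : ℝ) : UD 0 (algebraMap ℝ R2 r) := by
  intro s j hs
  rw [Polynomial.algebraMap_apply, Polynomial.coeff_C]
  split_ifs with h
  · rw [Polynomial.algebraMap_apply, Polynomial.coeff_C, if_neg (by omega)]
  · simp

lemma LO.mono {t : ℝ} {d d' : ℕ} {h : R2} (hd : d ≤ d') (hh : LO t d' h) : LO t d h :=
  fun s => (pow_dvd_pow _ (by omega)).trans (hh s)

lemma LO.add {t : ℝ} {d : ℕ} {h k : R2} (hh : LO t d h) (hk : LO t d k) : LO t d (h + k) := by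
  intro s
  rw [Polynomial.coeff_add]
  exact dvd_add (hh s) (hk s)

lemma LO.mul {t : ℝ} {d e : ℕ} {h k : R2} (hh : LO t d h) (hk : LO t e k) :
    LO t (d + e) (h * k) := by
  intro s
  rw [Polynomial.coeff_mul]
  apply Finset.dvd_sum
  rintro ⟨a, b⟩ hab
  rw [Finset.HasAntidiagonal.mem_antidiagonal] at hab
  simp only at hab ⊢
  refine dvd_trans ?_ (mul_dvd_mul (hh a) (hk b))
  rw [← pow_add]
  exact pow_dvd_pow _ (by omega)

lemma LO.zero (t : ℝ) (d : ℕ) : LO t d (0 : R2) := by
  intro s; simp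

lemma LO.any (t : ℝ) (h : R2) : LO t 0 h := by
  intro s; simp

lemma LO.pow {t : ℝ} {d : ℕ} {h : R2} (hh : LO t d h) (k : ℕ) : LO t (k * d) (h ^ k) := by
  induction k with
  | zero => simpa using LO.any t 1
  | succ k ih =>
    rw [pow_succ, Nat.succ_mul]
    exact ih.mul hh

lemma LO.sum {ι : Type*} (t : ℝ) (s : Finset ι) (d : ℕ) (f : ι → R2) (h : ∀ i ∈ s, LO t d (f i)) :
    LO t d (∑ i ∈ s, f i) := by
  classical
  induction s using Finset.induction_on with
  | empty => simpa using LO.zero t d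
  | insert a s ha ih =>
    rw [Finset.sum_insert ha]
    exact (h a (Finset.mem_insert_self _ _)).add (ih fun i hi => h i (Finset.mem_insert_of_mem hi))

lemma LO.prod {ι : Type*} (t : ℝ) (s : Finset ι) (d : ι → ℕ) (f : ι → R2)
    (h : ∀ i ∈ s, LO t (d i) (f i)) : LO t (∑ i ∈ s, d i) (∏ i ∈ s, f i) := by
  classical
  induction s using Finset.induction_on with
  | empty => simpa using LO.any t 1
  | insert a s ha ih =>
    rw [Finset.prod_insert ha, Finset.sum_insert ha]
    exact (h a (Finset.mem_insert_self _ _)).mul (ih fun i hi => h i (Finset.mem_insert_of_mem hi))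

variable {n : ℕ}

lemma aeval_expand {S : Type*} [CommRing S] [Algebra ℝ S] (w : Fin n → S)
    (g : MvPolynomial (Fin n) ℝ) :
    MvPolynomial.aeval w g = ∑ γ ∈ g.support, algebraMap ℝ S (g.coeff γ) * ∏ i, w i ^ γ i := by
  rw [MvPolynomial.aeval_def, MvPolynomial.eval₂_eq']

lemma UD_aeval (w : Fin n → R2) (hw : ∀ i, UD 1 (w i)) (g : MvPolynomial (Fin n) ℝ) (D : ℕ)
    (hg : ∀ γ ∈ g.support, ∑ i, γ i ≤ D) : UD D (MvPolynomial.aeval w g) := by
  rw [aeval_expand]
  apply UD.sum
  intro γ hγ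
  have h1 : UD (∑ i, γ i) (∏ i, w i ^ γ i) := by
    apply UD.prod
    intro i _
    simpa using (hw i).pow (γ i)
  have h2 := (UD.const (g.coeff γ)).mul h1
  rw [zero_add] at h2
  exact h2.mono (hg γ hγ)

lemma LO_aeval (t : ℝ) (w : Fin n → R2) (hw : ∀ i, LO t 1 (w i)) (g : MvPolynomial (Fin n) ℝ)
    (v : ℕ) (hg : ∀ γ ∈ g.support, v ≤ ∑ i, γ i) : LO t v (MvPolynomial.aeval w g) := by
  rw [aeval_expand]
  apply LO.sum
  intro γ hγ
  have h1 : LO t (∑ i, γ i) (∏ i, w i ^ γ i) := by
    apply LO.prod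
    intro i _
    simpa using (hw i).pow (γ i)
  have h2 := (LO.any t (algebraMap ℝ R2 (g.coeff γ))).mul h1
  rw [zero_add] at h2
  exact h2.mono (hg γ hγ)

/-- the bivariate point `a + T u + E z` -/
def linePt (a u z : Fin n → ℝ) : Fin n → R2 := fun i =>
  Polynomial.C (Polynomial.C (a i) + Polynomial.C (u i) * Polynomial.X)
    + Polynomial.C (Polynomial.C (z i)) * Polynomial.X

lemma UD_linePt (a u z : Fin n → ℝ) (i : Fin n) : UD 1 (linePt a u z i) := by
  intro s j hs
  simp only [linePt, Polynomial.coeff_add, Polynomial.coeff_C_mul, Polynomial.coeff_C,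
    Polynomial.coeff_X]
  rcases s with _ | s
  · simp only [if_true]
    have hj : 1 < j := by omega
    simp [Polynomial.coeff_C, Polynomial.coeff_X, show j ≠ 0 by omega, show (1 : ℕ) ≠ j by omega]
  · rcases s with _ | s
    · have hj : j ≠ 0 := by omega
      simp [Polynomial.coeff_one, hj]
    · simp

/-- local expansion of `g` at `x` in the frame `A` -/
def loc (x : Fin n → ℝ) (A : Fin n → (Fin n → ℝ)) (g : MvPolynomial (Fin n) ℝ) :
    MvPolynomial (Fin n) ℝ :=
  MvPolynomial.aeval (fun i => MvPolynomial.C (x i) + ∑ j, MvPolynomial.C (A j i) * MvPolynomial.X j) g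

lemma eval_loc (x : Fin n → ℝ) (A : Fin n → (Fin n → ℝ)) (g : MvPolynomial (Fin n) ℝ)
    (y : Fin n → ℝ) :
    MvPolynomial.eval y (loc x A g) = MvPolynomial.eval (fun i => x i + ∑ j, A j i * y j) g := by
  have h : (MvPolynomial.aeval y : MvPolynomial (Fin n) ℝ →ₐ[ℝ] ℝ).comp
      (MvPolynomial.aeval (fun i => MvPolynomial.C (x i) + ∑ j, MvPolynomial.C (A j i) * MvPolynomial.X j))
      = (MvPolynomial.aeval (fun i => x i + ∑ j, A j i * y j) : MvPolynomial (Fin n) ℝ →ₐ[ℝ] ℝ) := by
    apply MvPolynomial.algHom_ext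
    intro i
    simp
  have := congrArg (fun f => f g) h
  simpa [loc, MvPolynomial.coe_aeval_eq_eval] using this

lemma loc_ne_zero (x : Fin n → ℝ) (A : Fin n → (Fin n → ℝ)) (hA : LinearIndependent ℝ A)
    (g : MvPolynomial (Fin n) ℝ) (hg : g ≠ 0) : loc x A g ≠ 0 := by
  intro h0
  apply hg
  apply MvPolynomial.funext
  intro y
  have hspan : ⊤ ≤ Submodule.span ℝ (Set.range A) := by
    rw [hA.span_eq_top_of_card_eq_finrank' (by simp)]
  let b : Module.Basis (Fin n) ℝ (Fin n → ℝ) := Module.Basis.mk hA hspan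
  have h1 : y = fun i => x i + ∑ j, A j i * (b.repr (y - x)) j := by
    funext i
    have h2 := b.sum_repr (y - x)
    have h3 := congrFun h2 i
    simp only [Finset.sum_apply, Pi.smul_apply, Pi.sub_apply, smul_eq_mul] at h3
    have h4 : ∑ j, A j i * (b.repr (y - x)) j = y i - x i := by
      rw [← h3]
      apply Finset.sum_congr rfl
      intro j _
      simp [b, mul_comm]
    rw [h4]; ring
  rw [h1, ← eval_loc, h0]
  simp

/-- comparison of the expansion along a line with the local expansion -/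
lemma aeval_linePt_eq (x : Fin n → ℝ) (A : Fin n → (Fin n → ℝ)) (a u z : Fin n → ℝ) (t : ℝ)
    (hx : ∀ i, x i = a i + t * u i) (μ ζ : Fin n → ℝ) (hu : ∀ i, u i = ∑ j, μ j * A j i)
    (hz : ∀ i, z i = ∑ j, ζ j * A j i) (g : MvPolynomial (Fin n) ℝ) :
    MvPolynomial.aeval (linePt a u z) g =
      MvPolynomial.aeval (fun j => Polynomial.C (Polynomial.C (μ j) * (Polynomial.X - Polynomial.C t))
        + Polynomial.C (Polynomial.C (ζ j)) * Polynomial.X : Fin n → R2) (loc x A g) := by
  have h : (MvPolynomial.aeval (fun j => Polynomial.C (Polynomial.C (μ j) * (Polynomial.X - Polynomial.C t))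
        + Polynomial.C (Polynomial.C (ζ j)) * Polynomial.X : Fin n → R2) :
          MvPolynomial (Fin n) ℝ →ₐ[ℝ] R2).comp
      (MvPolynomial.aeval (fun i => MvPolynomial.C (x i) + ∑ j, MvPolynomial.C (A j i) * MvPolynomial.X j))
      = (MvPolynomial.aeval (linePt a u z) : MvPolynomial (Fin n) ℝ →ₐ[ℝ] R2) := by
    apply MvPolynomial.algHom_ext
    intro i
    have hC : ∀ r : ℝ, (algebraMap ℝ R2) r = Polynomial.C (Polynomial.C r) := fun r => rfl
    simp only [AlgHom.comp_apply, MvPolynomial.aeval_X, map_add, map_sum, map_mul,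
      MvPolynomial.algHom_C, hC]
    have e1 : ∀ j : Fin n, (Polynomial.C (Polynomial.C (A j i)) : R2) *
        (Polynomial.C (Polynomial.C (μ j)) * Polynomial.C (Polynomial.X - Polynomial.C t)
          + Polynomial.C (Polynomial.C (ζ j)) * Polynomial.X)
        = Polynomial.C (Polynomial.C (μ j * A j i)) * Polynomial.C (Polynomial.X - Polynomial.C t)
          + Polynomial.C (Polynomial.C (ζ j * A j i)) * Polynomial.X := by
      intro j
      simp only [map_mul]
      ring
    rw [Finset.sum_congr rfl (fun j _ => e1 j), Finset.sum_add_distrib, ← Finset.sum_mul,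
      ← Finset.sum_mul, ← map_sum, ← map_sum, ← map_sum, ← map_sum, ← hu i, ← hz i, hx i]
    simp only [linePt, map_add, map_mul, map_sub]
    ring
  have := congrArg (fun f => f g) h
  simpa [loc] using this.symm

lemma LO_loc (t μ ζ : ℝ) : LO t 1 (Polynomial.C (Polynomial.C μ * (Polynomial.X - Polynomial.C t))
        + Polynomial.C (Polynomial.C ζ) * Polynomial.X : R2) := by
  intro s
  rcases s with _ | s
  · simp
  · simp

/-- number of exponents outside `i` -/
def off (i : Fin n) (γ : Fin n →₀ ℕ) : ℕ := ∑ j, (if j = i then 0 else 1) * γ j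

lemma sum_eq_off (i : Fin n) (γ : Fin n →₀ ℕ) : ∑ j, γ j = off i γ + γ i := by
  have : γ i = ∑ j, (if j = i then 1 else 0) * γ j := by
    simp
  rw [off, this, ← Finset.sum_add_distrib]
  apply Finset.sum_congr rfl
  intro j _
  split_ifs <;> simp

lemma exists_dir (x : Fin n → ℝ) (A : Fin n → (Fin n → ℝ)) (a u : Fin n → ℝ) (t : ℝ)
    (hx : ∀ i, x i = a i + t * u i) (i : Fin n) (hu : u = A i) (g : MvPolynomial (Fin n) ℝ)
    (β : Fin n →₀ ℕ) (hβ : (loc x A g).coeff β ≠ 0) :
    ∃ z : Fin n → ℝ, (MvPolynomial.aeval (linePt a u z) g : R2).coeff (off i β) ≠ 0 := by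
  classical
  set G := loc x A g with hG
  set s := off i β with hs
  set q : MvPolynomial (Fin n) ℝ := ∑ γ ∈ G.support.filter (fun γ => off i γ = s),
    MvPolynomial.monomial γ (G.coeff γ) with hq
  have hq0 : q ≠ 0 := by
    intro h0
    have h1 : q.coeff β = G.coeff β := by
      rw [hq, MvPolynomial.coeff_sum]
      rw [Finset.sum_eq_single β]
      · simp
      · intro γ _ hne
        rw [MvPolynomial.coeff_monomial, if_neg hne]
      · intro hnot
        exfalso
        apply hnot
        rw [Finset.mem_filter]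
        exact ⟨MvPolynomial.mem_support_iff.mpr hβ, rfl⟩
    rw [h0] at h1
    exact hβ (by simpa using h1.symm)
  obtain ⟨ξ, hξ⟩ : ∃ ξ : Fin n → ℝ, MvPolynomial.eval ξ q ≠ 0 := by
    by_contra hcon
    push Not at hcon
    exact hq0 (MvPolynomial.funext (fun y => by rw [hcon y]; simp))
  refine ⟨fun k => ∑ j, (Function.update ξ i 0) j * A j k, ?_⟩
  intro h0
  apply hξ
  have hform := aeval_linePt_eq x A a u (fun k => ∑ j, (Function.update ξ i 0) j * A j k) t hx
    (Pi.single i 1) (Function.update ξ i 0)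
    (by intro k; rw [hu]; simp [Pi.single_apply]) (fun _ => rfl) g
  rw [hform] at h0
  set w' : Fin n → R2 := fun j => Polynomial.C (Polynomial.C ((Pi.single i (1 : ℝ) : Fin n → ℝ) j) * (Polynomial.X - Polynomial.C t))
        + Polynomial.C (Polynomial.C ((Function.update ξ i 0) j)) * Polynomial.X with hw'
  let ev : R2 →+* Polynomial ℝ := Polynomial.mapRingHom (Polynomial.evalRingHom (t + ξ i))
  have hev : ∀ j, ev (w' j) = Polynomial.C (ξ j) * Polynomial.X ^ (if j = i then 0 else 1) := by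
    intro j
    by_cases hj : j = i
    · subst hj
      simp [ev, hw']
    · simp [ev, hw', hj, Pi.single_apply]
  have h1 : (ev (MvPolynomial.aeval w' G)).coeff s = 0 := by
    have : (ev (MvPolynomial.aeval w' G)).coeff s
        = (Polynomial.evalRingHom (t + ξ i)) ((MvPolynomial.aeval w' G : R2).coeff s) :=
      Polynomial.coeff_map _ _
    rw [this, h0, map_zero]
  have h2 : ev (MvPolynomial.aeval w' G) = ∑ γ ∈ G.support, Polynomial.C (G.coeff γ) *
      (Polynomial.C (∏ j, ξ j ^ γ j) * Polynomial.X ^ (off i γ)) := by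
    rw [aeval_expand, map_sum]
    apply Finset.sum_congr rfl
    intro γ _
    rw [map_mul, map_prod]
    congr 1
    · simp [ev, Polynomial.algebraMap_apply]
    · have e1 : ∀ j, ev (w' j ^ γ j) = Polynomial.C (ξ j ^ γ j) *
          Polynomial.X ^ ((if j = i then 0 else 1) * γ j) := by
        intro j
        rw [map_pow, hev, mul_pow, ← pow_mul, Polynomial.C_pow]
      rw [Finset.prod_congr rfl (fun j _ => e1 j), Finset.prod_mul_distrib,
        Finset.prod_pow_eq_pow_sum, ← map_prod]
      rfl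
  rw [h2, Polynomial.finsetSum_coeff] at h1
  rw [hq, map_sum, Finset.sum_filter]
  refine Eq.trans ?_ h1
  apply Finset.sum_congr rfl
  intro γ _
  rw [Polynomial.coeff_C_mul, Polynomial.coeff_C_mul, Polynomial.coeff_X_pow]
  by_cases hc : off i γ = s
  · rw [if_pos hc, if_pos hc.symm, MvPolynomial.eval_monomial, mul_one]
    congr 1
    rw [Finsupp.prod_fintype]
    intro i
    simp
  · rw [if_neg hc, if_neg (Ne.symm hc)]
    simp

/-- zeros of a univariate polynomial at distinct points, counted with multiplicity -/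
lemma sum_orders_le {ι : Type*} (s : Finset ι) (t : ι → ℝ) (ht : Set.InjOn t s) (e : ι → ℕ)
    (h : Polynomial ℝ) (h0 : h ≠ 0) (hd : ∀ i ∈ s, (Polynomial.X - Polynomial.C (t i)) ^ e i ∣ h) :
    ∑ i ∈ s, e i ≤ h.natDegree := by
  classical
  have h1 : (∏ i ∈ s, (Polynomial.X - Polynomial.C (t i)) ^ e i) ∣ h := by
    apply Finset.prod_dvd_of_coprime
    · intro i hi j hj hij
      apply IsCoprime.pow
      apply Polynomial.isCoprime_X_sub_C_of_isUnit_sub
      rw [isUnit_iff_ne_zero, sub_ne_zero]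
      intro he
      exact hij (ht hi hj he)
    · exact hd
  have h2 := Polynomial.natDegree_le_of_dvd h1 h0
  rw [Polynomial.natDegree_prod_of_monic] at h2
  · refine le_trans (le_of_eq ?_) h2
    apply Finset.sum_congr rfl
    intro i _
    rw [Polynomial.natDegree_pow, Polynomial.natDegree_X_sub_C, mul_one]
  · intro i _
    exact (Polynomial.monic_X_sub_C _).pow _

/-- Vanishing lemma. -/
theorem vanishing {J L : Type*} [Fintype J] [Nonempty J]
    (x : J → (Fin n → ℝ)) (a u : L → (Fin n → ℝ)) (inc : J → L → Prop)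
    [∀ p l, Decidable (inc p l)]
    (hline : ∀ p l, inc p l → ∃ t : ℝ, ∀ i, x p i = a l i + t * u l i)
    (hinj : ∀ p q l, inc p l → inc q l → x p = x q → p = q)
    (tup : J → Fin n → L) (htup : ∀ p i, inc p (tup p i))
    (hind : ∀ p, LinearIndependent ℝ (fun i => u (tup p i)))
    (D : ℕ) (α : J → ℤ) (θ : L → ℤ)
    (hθ : ∀ p i, (D : ℤ) < ∑ q ∈ Finset.univ.filter (fun q => inc q (tup p i)),
      max 0 (θ (tup p i) + α q))
    (g : MvPolynomial (Fin n) ℝ) (hgD : ∀ γ ∈ g.support, ∑ i, γ i ≤ D)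
    (hcond : ∀ p (β : Fin n →₀ ℕ), (∀ i, (β i : ℤ) < θ (tup p i) + α p) →
      (loc (x p) (fun i => u (tup p i)) g).coeff β = 0) : g = 0 := by
  classical
  by_contra hg0
  -- order of vanishing at each point
  have hord : ∀ p : J, ∃ β : Fin n →₀ ℕ, β ∈ (loc (x p) (fun i => u (tup p i)) g).support ∧
      ∀ γ ∈ (loc (x p) (fun i => u (tup p i)) g).support, ∑ i, β i ≤ ∑ i, γ i := by
    intro p
    have hne : (loc (x p) (fun i => u (tup p i)) g).support.Nonempty := by
      rw [MvPolynomial.support_nonempty]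
      exact loc_ne_zero _ _ (hind p) g hg0
    exact Finset.exists_min_image _ _ hne
  choose B hB hBmin using hord
  -- the point minimising the handicapped order
  obtain ⟨p, -, hp⟩ := Finset.exists_min_image Finset.univ
    (fun p => (∑ i, (B p i : ℤ)) - α p) (Finset.univ_nonempty)
  -- some line through p is finished
  have hex : ∃ i, θ (tup p i) + α p ≤ (B p i : ℤ) := by
    by_contra hcon
    push Not at hcon
    exact MvPolynomial.mem_support_iff.mp (hB p) (hcond p (B p) hcon)
  obtain ⟨i, hi⟩ := hex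
  set l := tup p i with hl
  obtain ⟨t, ht⟩ := hline p l (htup p i)
  obtain ⟨z0, hz0⟩ := exists_dir (x p) (fun i => u (tup p i)) (a l) (u l) t ht i rfl g (B p)
    (MvPolynomial.mem_support_iff.mp (hB p))
  -- minimal transverse order on the line
  have hexs : ∃ s, ∃ z : Fin n → ℝ, (MvPolynomial.aeval (linePt (a l) (u l) z) g : R2).coeff s ≠ 0 :=
    ⟨_, z0, hz0⟩
  set s' := Nat.find hexs with hs'
  obtain ⟨z, hz⟩ := Nat.find_spec hexs
  have hs'le : s' ≤ off i (B p) := Nat.find_min' hexs ⟨z0, hz0⟩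
  set h := (MvPolynomial.aeval (linePt (a l) (u l) z) g : R2).coeff s' with hh
  have hUD : UD D (MvPolynomial.aeval (linePt (a l) (u l) z) g : R2) :=
    UD_aeval _ (UD_linePt _ _ _) g D hgD
  have hdeg : s' + h.natDegree ≤ D := by
    by_contra hcon
    push Not at hcon
    have h1 := hUD s' h.natDegree hcon
    have h2 : h.leadingCoeff = 0 := h1
    exact hz (Polynomial.leadingCoeff_eq_zero.mp h2)
  -- parameters of the points on the line
  have hpar : ∀ q : J, ∃ t : ℝ, inc q l → ∀ i, x q i = a l i + t * u l i := by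
    intro q
    by_cases hq : inc q l
    · obtain ⟨t, ht⟩ := hline q l hq
      exact ⟨t, fun _ => ht⟩
    · exact ⟨0, fun h => absurd h hq⟩
  choose τ hτ using hpar
  have hdiv : ∀ q ∈ Finset.univ.filter (fun q => inc q l),
      (Polynomial.X - Polynomial.C (τ q)) ^ ((∑ i, B q i) - s') ∣ h := by
    intro q hq
    rw [Finset.mem_filter] at hq
    have hq' := hq.2
    have hspan : ⊤ ≤ Submodule.span ℝ (Set.range (fun i => u (tup q i))) := by
      rw [(hind q).span_eq_top_of_card_eq_finrank' (by simp)]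
    let b : Module.Basis (Fin n) ℝ (Fin n → ℝ) := Module.Basis.mk (hind q) hspan
    have hrep : ∀ v : Fin n → ℝ, ∀ k, v k = ∑ j, (b.repr v) j * u (tup q j) k := by
      intro v k
      have h3 := congrFun (b.sum_repr v) k
      simp only [Finset.sum_apply, Pi.smul_apply, smul_eq_mul] at h3
      rw [← h3]
      apply Finset.sum_congr rfl
      intro j _
      simp [b]
    have hform := aeval_linePt_eq (x q) (fun i => u (tup q i)) (a l) (u l) z (τ q)
      (hτ q hq') (b.repr (u l)) (b.repr z) (hrep (u l)) (hrep z) g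
    have hLO : LO (τ q) (∑ i, B q i) (MvPolynomial.aeval (linePt (a l) (u l) z) g : R2) := by
      rw [hform]
      exact LO_aeval _ _ (fun j => LO_loc _ _ _) _ _ (hBmin q)
    exact hLO s'
  have hτinj : Set.InjOn τ (Finset.univ.filter (fun q => inc q l) : Finset J) := by
    intro q hq r hr hqr
    rw [Finset.mem_coe, Finset.mem_filter] at hq hr
    apply hinj q r l hq.2 hr.2
    funext k
    rw [hτ q hq.2 k, hτ r hr.2 k, hqr]
  have hsum := sum_orders_le _ τ hτinj (fun q => (∑ i, B q i) - s') h hz hdiv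
  have hfin := hθ p i
  rw [← hl] at hfin
  have hcmp : ∑ q ∈ Finset.univ.filter (fun q => inc q l), max 0 (θ l + α q)
      ≤ ∑ q ∈ Finset.univ.filter (fun q => inc q l), (((∑ i, B q i) - s' : ℕ) : ℤ) := by
    apply Finset.sum_le_sum
    intro q _
    have h1 := hp q (Finset.mem_univ q)
    have h2 : (∑ j, (B p j : ℤ)) = off i (B p) + B p i := by
      have := sum_eq_off i (B p)
      exact_mod_cast this
    have h3 : ((∑ j, B q j : ℕ) : ℤ) = ∑ j, (B q j : ℤ) := by push_cast; rfl
    have h4 : (s' : ℤ) ≤ off i (B p) := by exact_mod_cast hs'le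
    have h5 : θ l + α q ≤ (∑ j, (B q j : ℤ)) - s' := by linarith
    rw [← h3] at h5
    apply max_le
    · positivity
    · omega
  have hsum' : ∑ q ∈ Finset.univ.filter (fun q => inc q l), (((∑ i, B q i) - s' : ℕ) : ℤ)
      ≤ (h.natDegree : ℤ) := by exact_mod_cast hsum
  omega

/-- exponent vector from a box index -/
def expo {N : ℕ} (κ : Fin n → Fin (N + 1)) : Fin n →₀ ℕ :=
  Finsupp.equivFunOnFinite.symm (fun i => (κ i : ℕ))

lemma expo_apply {N : ℕ} (κ : Fin n → Fin (N + 1)) (i : Fin n) : expo κ i = κ i := rfl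

lemma expo_inj {N : ℕ} {κ κ' : Fin n → Fin (N + 1)} (h : expo κ = expo κ') : κ = κ' := by
  funext i
  apply Fin.ext
  have := congrArg (fun f => f i) h
  simpa [expo_apply] using this

/-- polynomial with exponents in a box -/
def polyOf (n N : ℕ) : ((Fin n → Fin (N + 1)) → ℝ) →ₗ[ℝ] MvPolynomial (Fin n) ℝ :=
  ∑ κ, (MvPolynomial.monomial (expo κ)) ∘ₗ (LinearMap.proj κ)

lemma polyOf_apply (n N : ℕ) (c : (Fin n → Fin (N + 1)) → ℝ) :
    polyOf n N c = ∑ κ, MvPolynomial.monomial (expo κ) (c κ) := by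
  simp [polyOf]

lemma coeff_polyOf (n N : ℕ) (c : (Fin n → Fin (N + 1)) → ℝ) (κ : Fin n → Fin (N + 1)) :
    (polyOf n N c).coeff (expo κ) = c κ := by
  classical
  rw [polyOf_apply, MvPolynomial.coeff_sum, Finset.sum_eq_single κ]
  · simp
  · intro κ' _ hne
    rw [MvPolynomial.coeff_monomial, if_neg (fun h => hne (expo_inj h))]
  · intro h; exact absurd (Finset.mem_univ κ) h

lemma support_polyOf (n N : ℕ) (c : (Fin n → Fin (N + 1)) → ℝ) (γ : Fin n →₀ ℕ)
    (h : γ ∈ (polyOf n N c).support) : ∑ i, γ i ≤ n * N := by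
  classical
  rw [MvPolynomial.mem_support_iff, polyOf_apply, MvPolynomial.coeff_sum] at h
  obtain ⟨κ, _, hκ⟩ := Finset.exists_ne_zero_of_sum_ne_zero h
  rw [MvPolynomial.coeff_monomial] at hκ
  have hγ : expo κ = γ := by
    by_contra hne
    rw [if_neg hne] at hκ
    exact hκ rfl
  rw [← hγ]
  calc ∑ i, expo κ i ≤ ∑ _i : Fin n, N := by
        apply Finset.sum_le_sum
        intro i _
        rw [expo_apply]
        have := (κ i).isLt
        omega
    _ = n * N := by simp

/-- Counting inequality. -/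
theorem counting {J L : Type*} [Fintype J] [Nonempty J]
    (x : J → (Fin n → ℝ)) (a u : L → (Fin n → ℝ)) (inc : J → L → Prop)
    [∀ p l, Decidable (inc p l)]
    (hline : ∀ p l, inc p l → ∃ t : ℝ, ∀ i, x p i = a l i + t * u l i)
    (hinj : ∀ p q l, inc p l → inc q l → x p = x q → p = q)
    (tup : J → Fin n → L) (htup : ∀ p i, inc p (tup p i))
    (hind : ∀ p, LinearIndependent ℝ (fun i => u (tup p i)))
    (N : ℕ) (α : J → ℤ) (θ : L → ℤ)
    (hθ : ∀ p i, ((n * N : ℕ) : ℤ) < ∑ q ∈ Finset.univ.filter (fun q => inc q (tup p i)),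
      max 0 (θ (tup p i) + α q)) :
    (N + 1) ^ n ≤ ∑ p, ∏ i, (θ (tup p i) + α p).toNat := by
  classical
  by_contra hcon
  push Not at hcon
  let Sg := Σ p : J, ((i : Fin n) → Fin ((θ (tup p i) + α p).toNat))
  let Φ : ((Fin n → Fin (N + 1)) → ℝ) →ₗ[ℝ] (Sg → ℝ) :=
    LinearMap.pi (fun σ => (MvPolynomial.lcoeff ℝ
      (Finsupp.equivFunOnFinite.symm (fun i => ((σ.2 i : ℕ))))) ∘ₗ
      ((MvPolynomial.aeval (fun i => MvPolynomial.C (x σ.1 i) + ∑ j, MvPolynomial.C (u (tup σ.1 j) i)
        * MvPolynomial.X j) : MvPolynomial (Fin n) ℝ →ₐ[ℝ] MvPolynomial (Fin n) ℝ).toLinearMap) ∘ₗ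
      (polyOf n N))
  have hcard : Module.finrank ℝ (Sg → ℝ) < Module.finrank ℝ ((Fin n → Fin (N + 1)) → ℝ) := by
    rw [Module.finrank_fintype_fun_eq_card, Module.finrank_fintype_fun_eq_card]
    simp only [Sg, Fintype.card_sigma, Fintype.card_pi, Fintype.card_fin, Finset.prod_const,
      Finset.card_univ]
    exact hcon
  have hker := LinearMap.ker_ne_bot_of_finrank_lt (f := Φ) hcard
  obtain ⟨c, hc, hc0⟩ := (Submodule.ne_bot_iff _).mp hker
  have hg0 : polyOf n N c ≠ 0 := by
    intro h0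
    apply hc0
    funext κ
    rw [← coeff_polyOf n N c κ, h0]
    simp
  apply hg0
  refine vanishing x a u inc hline hinj tup htup hind (n * N) α θ hθ (polyOf n N c)
    (support_polyOf n N c) ?_
  intro p β hβ
  have hlt : ∀ i, β i < (θ (tup p i) + α p).toNat := by
    intro i
    have := hβ i
    omega
  have h1 := congrFun (LinearMap.mem_ker.mp hc) ⟨p, fun i => ⟨β i, hlt i⟩⟩
  have h2 : (Finsupp.equivFunOnFinite.symm (fun i => β i) : Fin n →₀ ℕ) = β := by
    ext i; rfl
  simpa [Φ, h2, loc] using h1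

/-- Real form of the counting inequality. -/
theorem real_ineq {J L : Type*} [Fintype J] [Nonempty J]
    (x : J → (Fin n → ℝ)) (a u : L → (Fin n → ℝ)) (inc : J → L → Prop)
    [∀ p l, Decidable (inc p l)]
    (hline : ∀ p l, inc p l → ∃ t : ℝ, ∀ i, x p i = a l i + t * u l i)
    (hinj : ∀ p q l, inc p l → inc q l → x p = x q → p = q)
    (tup : J → Fin n → L) (htup : ∀ p i, inc p (tup p i))
    (hind : ∀ p, LinearIndependent ℝ (fun i => u (tup p i)))
    (α : J → ℝ) (θ : L → ℝ) (b : J → L → ℝ)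
    (hb : ∀ p i q, inc q (tup p i) → b q (tup p i) = max 0 (θ (tup p i) + α q))
    (hsum : ∀ p i, ∑ q ∈ Finset.univ.filter (fun q => inc q (tup p i)), b q (tup p i) = 1) :
    1 ≤ (n : ℝ) ^ n * ∑ p, ∏ i, b p (tup p i) := by
  classical
  have hstep : ∀ N : ℕ, (1 : ℝ) ≤ ∑ p, ∏ i, ((n : ℝ) * b p (tup p i) + 3 / ((N : ℝ) + 1)) := by
    intro N
    set D : ℕ := n * (N + 1) with hD
    have hN : (0 : ℝ) < (N : ℝ) + 1 := by positivity
    have h1 := counting x a u inc hline hinj tup htup hind (N + 1)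
      (fun q => ⌊(D : ℝ) * α q⌋) (fun l => ⌈(D : ℝ) * θ l⌉ + 2) (by
        intro p i
        have hreal : (D : ℝ) < ∑ q ∈ Finset.univ.filter (fun q => inc q (tup p i)),
            (max 0 ((⌈(D : ℝ) * θ (tup p i)⌉ : ℝ) + 2 + (⌊(D : ℝ) * α q⌋ : ℝ))) := by
          have hge : ∀ q, inc q (tup p i) → (D : ℝ) * b q (tup p i) ≤
              max 0 ((⌈(D : ℝ) * θ (tup p i)⌉ : ℝ) + 2 + (⌊(D : ℝ) * α q⌋ : ℝ)) ∧
              (0 < b q (tup p i) → (D : ℝ) * b q (tup p i) <
              max 0 ((⌈(D : ℝ) * θ (tup p i)⌉ : ℝ) + 2 + (⌊(D : ℝ) * α q⌋ : ℝ))) := by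
            intro q hq
            have c1 := Int.le_ceil ((D : ℝ) * θ (tup p i))
            have c2 := Int.lt_floor_add_one ((D : ℝ) * α q)
            have hDnn : (0 : ℝ) ≤ D := by positivity
            have c3 : 0 < b q (tup p i) → (D : ℝ) * b q (tup p i) <
              max 0 ((⌈(D : ℝ) * θ (tup p i)⌉ : ℝ) + 2 + (⌊(D : ℝ) * α q⌋ : ℝ)) := by
              intro hpos
              rw [hb p i q hq] at hpos ⊢
              have hpos' : 0 < θ (tup p i) + α q := by
                by_contra hc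
                push Not at hc
                rw [max_eq_left hc] at hpos
                exact lt_irrefl _ hpos
              rw [max_eq_right hpos'.le]
              refine lt_of_lt_of_le ?_ (le_max_right _ _)
              nlinarith
            refine ⟨?_, c3⟩
            by_cases hpos : 0 < b q (tup p i)
            · exact (c3 hpos).le
            · push Not at hpos
              have : (D : ℝ) * b q (tup p i) ≤ 0 := mul_nonpos_of_nonneg_of_nonpos hDnn hpos
              exact this.trans (le_max_left _ _)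
          obtain ⟨q0, hq0, hq0pos⟩ : ∃ q ∈ Finset.univ.filter (fun q => inc q (tup p i)),
              0 < b q (tup p i) := by
            by_contra hc
            push Not at hc
            have := Finset.sum_nonpos hc
            rw [hsum p i] at this
            linarith
          calc (D : ℝ) = ∑ q ∈ Finset.univ.filter (fun q => inc q (tup p i)),
                (D : ℝ) * b q (tup p i) := by rw [← Finset.mul_sum, hsum p i, mul_one]
            _ < _ := by
                apply Finset.sum_lt_sum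
                · intro q hq
                  exact (hge q (Finset.mem_filter.mp hq).2).1
                · exact ⟨q0, hq0, (hge q0 (Finset.mem_filter.mp hq0).2).2 hq0pos⟩
        have hcast : ((∑ q ∈ Finset.univ.filter (fun q => inc q (tup p i)),
            max 0 (⌈(D : ℝ) * θ (tup p i)⌉ + 2 + ⌊(D : ℝ) * α q⌋) : ℤ) : ℝ) =
            ∑ q ∈ Finset.univ.filter (fun q => inc q (tup p i)),
            (max 0 ((⌈(D : ℝ) * θ (tup p i)⌉ : ℝ) + 2 + (⌊(D : ℝ) * α q⌋ : ℝ))) := by
          push_cast; rfl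
        rw [← hcast] at hreal
        exact_mod_cast hreal)
    have h2 : ((N : ℝ) + 1 + 1) ^ n ≤ ∑ p, ∏ i, ((D : ℝ) * b p (tup p i) + 3) := by
      have h3 : (((N + 1 + 1) ^ n : ℕ) : ℝ) ≤
          ((∑ p, ∏ i, (⌈(D : ℝ) * θ (tup p i)⌉ + 2 + ⌊(D : ℝ) * α p⌋).toNat : ℕ) : ℝ) := by
        exact_mod_cast h1
      push_cast at h3
      refine h3.trans ?_
      apply Finset.sum_le_sum
      intro p _
      apply Finset.prod_le_prod
      · intro i _; positivity
      · intro i _
        have c1 := Int.ceil_lt_add_one ((D : ℝ) * θ (tup p i))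
        have c2 := Int.floor_le ((D : ℝ) * α p)
        have hDnn : (0 : ℝ) ≤ D := by positivity
        have hbeq := hb p i p (htup p i)
        have c3 : (((⌈(D : ℝ) * θ (tup p i)⌉ + 2 + ⌊(D : ℝ) * α p⌋).toNat : ℤ) : ℝ) =
            max ((⌈(D : ℝ) * θ (tup p i)⌉ : ℝ) + 2 + (⌊(D : ℝ) * α p⌋ : ℝ)) 0 := by
          rw [Int.toNat_eq_max]; push_cast; rfl
        have c4 : (((⌈(D : ℝ) * θ (tup p i)⌉ + 2 + ⌊(D : ℝ) * α p⌋).toNat : ℕ) : ℝ) =
            (((⌈(D : ℝ) * θ (tup p i)⌉ + 2 + ⌊(D : ℝ) * α p⌋).toNat : ℤ) : ℝ) := by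
          push_cast; rfl
        rw [c4, c3]
        apply max_le
        · have h5 : θ (tup p i) + α p ≤ b p (tup p i) := by
            rw [hbeq]; exact le_max_right _ _
          nlinarith
        · have h5 : 0 ≤ b p (tup p i) := by
            rw [hbeq]; exact le_max_left _ _
          positivity
    have hdiv : ∀ p, ∏ i, ((D : ℝ) * b p (tup p i) + 3) =
        ((N : ℝ) + 1) ^ n * ∏ i, ((n : ℝ) * b p (tup p i) + 3 / ((N : ℝ) + 1)) := by
      intro p
      have e1 : ((N : ℝ) + 1) ^ n = ∏ _i : Fin n, ((N : ℝ) + 1) := by simp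
      rw [e1, ← Finset.prod_mul_distrib]
      apply Finset.prod_congr rfl
      intro i _
      rw [hD]
      push_cast
      field_simp
    rw [Finset.sum_congr rfl (fun p _ => hdiv p), ← Finset.mul_sum] at h2
    have hpow : (0 : ℝ) < ((N : ℝ) + 1) ^ n := by positivity
    have h6 : ((N : ℝ) + 1) ^ n ≤ ((N : ℝ) + 1 + 1) ^ n :=
      pow_le_pow_left₀ hN.le (by linarith) n
    have h7 : ((N : ℝ) + 1) ^ n * 1 ≤ ((N : ℝ) + 1) ^ n *
        ∑ p, ∏ i, ((n : ℝ) * b p (tup p i) + 3 / ((N : ℝ) + 1)) := by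
      rw [mul_one]; exact h6.trans h2
    exact le_of_mul_le_mul_left h7 hpow
  have hlim : Filter.Tendsto (fun N : ℕ => ∑ p, ∏ i, ((n : ℝ) * b p (tup p i) + 3 / ((N : ℝ) + 1)))
      Filter.atTop (nhds (∑ p, ∏ i, ((n : ℝ) * b p (tup p i) + 0))) := by
    apply tendsto_finsetSum
    intro p _
    apply tendsto_finsetProd
    intro i _
    apply Filter.Tendsto.const_add
    have h0 := (tendsto_one_div_add_atTop_nhds_zero_nat (𝕜 := ℝ)).const_mul 3
    simpa [div_eq_mul_inv] using h0
  have h8 := ge_of_tendsto' hlim hstep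
  have h9 : ∑ p, ∏ i, ((n : ℝ) * b p (tup p i) + 0) = (n : ℝ) ^ n * ∑ p, ∏ i, b p (tup p i) := by
    rw [Finset.mul_sum]
    apply Finset.sum_congr rfl
    intro p _
    simp only [add_zero]
    rw [Finset.prod_mul_distrib]
    simp
  rw [h9] at h8
  exact h8

end

end Pool.Agent.Helper733.Joints
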